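import Pool.Agent.Lib.MP_bc0e65_co.Out

/-!
The generator `9 + m` of the family has period `2 (m + 2)` in the misere quotient.
-/

namespace Pool.Agent.Lib.MP_bc0e65_co

variable {m : ℕ}

theorem ev_nsmul_add (wt : ℕ → ℕ) (n j : ℕ) (w : Multiset ℕ) :
    ev wt (n • {j} + w) = n * wt j + ev wt w := by
  simp [ev, Multiset.map_nsmul, Multiset.sum_nsmul]

theorem Sm_nsmul_add (n : ℕ) (w : Multiset ℕ) : Sm m (n • {9 + m} + w) ↔
    SF m (ev (one 0) w) (ev (one 1) w) (ev (one 2) w) (ev (one 3) w) (ev (one 4) w)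
      (ev (one 5) w) (ev (one 6) w) (ev (one 7) w) (ev (one 8) w) (ev (wY m) w) (ev (wS m) w)
      (n + ev (one (9 + m)) w) := by
  have e2 : ¬ (9 ≤ 9 + m ∧ 9 + m < 9 + m) := by omega
  unfold Sm
  simp only [ev_nsmul_add, one_apply, wY_apply, wS_apply, if_neg e2]
  simp [lit1', lit2', lit3', lit4', lit5', lit6', lit7', lit8']

theorem kap_period {a s x : ℕ} (hs : s ≤ m) :
    kap m a s (x + 2 * (m + 2)) = kap m a s x := by
  unfold kap
  have e : x + 2 * (m + 2) + m + 1 - s = (x + m + 1 - s) + (m + 2) * 2 := by omega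
  have e1 : (x + 2 * (m + 2) + m + 1 - s) % (m + 2) = (x + m + 1 - s) % (m + 2) := by
    rw [e, Nat.add_mul_mod_self_left]
  have e2 : (x + 2 * (m + 2) + m + 1 - s) / (m + 2) % 2 = (x + m + 1 - s) / (m + 2) % 2 := by
    rw [e, Nat.add_mul_div_left _ _ (by omega)]
    omega
  rw [e1, e2]

theorem SF_period {a b r p q c5 c6 c7 c8 y s x : ℕ} (hs : y ≤ 1 → s ≤ m) (hx : 1 ≤ x) :
    SF m a b r p q c5 c6 c7 c8 y s (x + 2 * (m + 2)) ↔
    SF m a b r p q c5 c6 c7 c8 y s x := by
  have hk : y ≤ 1 → kap m a s (x + 2 * (m + 2)) = kap m a s x := fun h => kap_period (hs h)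
  unfold SF
  by_cases hD : Ded b r p q c5 c6 c7 c8 y
  · simp [hD]
  · have hy : y ≤ 1 := by
      unfold Ded at hD
      omega
    rw [hk hy]
    have h0 : (x + 2 * (m + 2) = 0) = False := by simp
    have h1 : (x = 0) = False := by
      rw [eq_iff_iff, iff_false]
      omega
    rw [h0, h1]

theorem Sm_eight (n : ℕ) : Sm m (n • {9 + m} + {8}) ↔ KK (m + 2) 0 (n + m + 1) := by
  rw [Sm_nsmul_add]
  have h0 : ∀ j, ev (one j) {8} = if 8 = j then 1 else 0 := by
    intro j
    simp [ev, one]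
  have h1 : ev (wY m) {8} = 0 := by simp [ev, wY]
  have h2 : ev (wS m) {8} = 0 := by simp [ev, wS]
  simp only [h0, h1, h2, lit8]
  simp [SF, Ded, kap_eq_one]

/-- The multiple `k` of the generator `9 + m` has period `p` if `k p = 2 (m + 2)`. -/
theorem fam_period (hm : 1 ≤ m) (k p : ℕ) (hk : 1 ≤ k) (hp : 1 ≤ p) (hP : 2 * (m + 2) = k * p) :
    HasPeriod (mcls (fam m) (fam_lower m) (k • {9 + m})) p := by
  refine hasPeriod_of (fam_lower m) (fam_outcome hm) {9 + m} {8} 1 (2 * (m + 2)) k p hk hp hP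
    ?_ ?_
  · intro n hn w
    rw [Sm_nsmul_add, Sm_nsmul_add]
    have e : n + 2 * (m + 2) + ev (one (9 + m)) w = n + ev (one (9 + m)) w + 2 * (m + 2) := by
      omega
    rw [e]
    exact SF_period (hs_le m w) (by omega)
  · intro q hq hq' t
    by_cases hqm : q < m + 2
    · refine ⟨(m + 2) * (2 * t), by nlinarith, ?_⟩
      rw [Sm_eight, Sm_eight]
      have e1 : (m + 2) * (2 * t) + q + m + 1 = (m + 2) * (2 * t + 1) + (q - 1) := by
        have : (m + 2) * (2 * t + 1) = (m + 2) * (2 * t) + (m + 2) := by ring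
        omega
      have e2 : (m + 2) * (2 * t) + m + 1 = (m + 2) * (2 * t) + (m + 1) := by ring
      rw [e1, e2, KK_iff _ _ _ _ (by omega), KK_iff _ _ _ _ (by omega)]
      omega
    · refine ⟨(m + 2) * (2 * t) + m + 4, by nlinarith, ?_⟩
      rw [Sm_eight, Sm_eight]
      have e2 : (m + 2) * (2 * t) + m + 4 + m + 1 = (m + 2) * (2 * t + 2) + 1 := by ring
      rw [e2, KK_iff _ _ _ _ (by omega)]
      by_cases hq2 : q + 1 = 2 * (m + 2)
      · have e1 : (m + 2) * (2 * t) + m + 4 + q + m + 1 = (m + 2) * (2 * t + 4) + 0 := by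
          have : (m + 2) * (2 * t + 4) = (m + 2) * (2 * t) + 4 * (m + 2) := by ring
          omega
        rw [e1, KK_iff _ _ _ _ (by omega)]
        omega
      · have e1 : (m + 2) * (2 * t) + m + 4 + q + m + 1 =
            (m + 2) * (2 * t + 3) + (q - (m + 1)) := by
          have : (m + 2) * (2 * t + 3) = (m + 2) * (2 * t) + 3 * (m + 2) := by ring
          omega
        rw [e1, KK_iff _ _ _ _ (by omega)]
        omega

/-- Every positive integer is the period of an element of some misere quotient. -/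
theorem exists_period (p : ℕ) (hp : 1 ≤ p) :
    ∃ (A : ClosedSet) (x : MisereQuotient A), HasPeriod x p :=
  ⟨_, _, fam_period (m := 3 * p - 2) (by omega) 6 p (by omega) hp (by omega)⟩

end Pool.Agent.Lib.MP_bc0e65_co
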