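import Mathlib

/-!
Finite impartial games under misere play, closed sets of games, misere quotients, and the period
of an element of a commutative monoid.
-/

namespace Pool.Agent.Lib.MP_bc0e65_co

/-- A finite (short) impartial game: a finite list of options, each of them a game. -/
inductive Game : Type
  | mk : (n : ℕ) → (Fin n → Game) → Game

namespace Game

/-- `IsOption H G`: the position `H` can be reached from `G` by one move. -/
def IsOption (H : Game) : Game → Prop
  | mk _ f => ∃ i, f i = H

/-- `IsP G`: under misere play (the player who makes the last move loses) the previous player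
wins `G`.  A game without options is won by the player to move, because the opponent has made
the last move; any other game is won by the previous player if and only if no option is. -/
def IsP : Game → Prop
  | mk n f => 0 < n ∧ ∀ i, ¬ IsP (f i)

/-- The empty game, which has no options. -/
instance : Zero Game := ⟨mk 0 Fin.elim0⟩

/-- Auxiliary recursion for the disjunctive sum. -/
def addAux (n : ℕ) (IH : Fin n → Game → Game) : Game → Game
  | mk m g => mk (n + m) (Fin.append (fun i => IH i (mk m g)) (fun j => addAux n IH (g j)))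

/-- The disjunctive sum `G + H`: its options are the games `G' + H` with `G'` an option of `G`
and the games `G + H'` with `H'` an option of `H` (see `isOption_add`). -/
def add : Game → Game → Game
  | mk n f => addAux n (fun i => add (f i))

instance : Add Game := ⟨add⟩

theorem mk_add_mk (n m : ℕ) (f : Fin n → Game) (g : Fin m → Game) :
    mk n f + mk m g = mk (n + m) (Fin.append (fun i => f i + mk m g) (fun j => mk n f + g j)) :=
  rfl

theorem isOption_add (K G H : Game) : IsOption K (G + H) ↔
    (∃ G', IsOption G' G ∧ K = G' + H) ∨ (∃ H', IsOption H' H ∧ K = G + H') := by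
  cases G with | mk n f => ?_
  cases H with | mk m g => ?_
  rw [mk_add_mk]
  constructor
  · rintro ⟨i, rfl⟩
    induction i using Fin.addCases with
    | left i => exact Or.inl ⟨f i, ⟨i, rfl⟩, by rw [Fin.append_left]⟩
    | right j => exact Or.inr ⟨g j, ⟨j, rfl⟩, by rw [Fin.append_right]⟩
  · rintro (⟨_, ⟨i, rfl⟩, rfl⟩ | ⟨_, ⟨j, rfl⟩, rfl⟩)
    · exact ⟨Fin.castAdd m i, by rw [Fin.append_left]⟩
    · exact ⟨Fin.natAdd n j, by rw [Fin.append_right]⟩

theorem not_isOption_zero (K : Game) : ¬ IsOption K 0 := by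
  rintro ⟨i, _⟩
  exact i.elim0

theorem option_induction {motive : Game → Prop}
    (h : ∀ G, (∀ H, IsOption H G → motive H) → motive G) (G : Game) : motive G := by
  induction G with
  | mk n f ih =>
    refine h _ ?_
    rintro _ ⟨i, rfl⟩
    exact ih i

theorem isP_iff (G : Game) : IsP G ↔ (∃ H, IsOption H G) ∧ ∀ H, IsOption H G → ¬ IsP H := by
  cases G with | mk n f => ?_
  constructor
  · rintro ⟨h0, h⟩
    refine ⟨⟨f ⟨0, h0⟩, ⟨_, rfl⟩⟩, ?_⟩
    rintro _ ⟨i, rfl⟩
    exact h i
  · rintro ⟨⟨_, ⟨i, _⟩⟩, h⟩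
    exact ⟨i.pos, fun i => h _ ⟨i, rfl⟩⟩

/-- Two games are the same up to the order and the multiplicity of options. -/
def Same : Game → Game → Prop
  | mk _ f, mk _ g => (∀ i, ∃ j, Same (f i) (g j)) ∧ (∀ j, ∃ i, Same (f i) (g j))

theorem same_iff (G H : Game) : Same G H ↔
    (∀ G', IsOption G' G → ∃ H', IsOption H' H ∧ Same G' H') ∧
    (∀ H', IsOption H' H → ∃ G', IsOption G' G ∧ Same G' H') := by
  cases G with | mk n f => ?_
  cases H with | mk m g => ?_
  constructor
  · rintro ⟨h1, h2⟩
    refine ⟨?_, ?_⟩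
    · rintro _ ⟨i, rfl⟩
      obtain ⟨j, hj⟩ := h1 i
      exact ⟨g j, ⟨j, rfl⟩, hj⟩
    · rintro _ ⟨j, rfl⟩
      obtain ⟨i, hi⟩ := h2 j
      exact ⟨f i, ⟨i, rfl⟩, hi⟩
  · rintro ⟨h1, h2⟩
    refine ⟨?_, ?_⟩
    · intro i
      obtain ⟨_, ⟨j, rfl⟩, hj⟩ := h1 (f i) ⟨i, rfl⟩
      exact ⟨j, hj⟩
    · intro j
      obtain ⟨_, ⟨i, rfl⟩, hi⟩ := h2 (g j) ⟨j, rfl⟩
      exact ⟨i, hi⟩

theorem Same.refl (G : Game) : Same G G := by
  induction G using option_induction with
  | h G ih =>
    rw [same_iff]
    exact ⟨fun G' h => ⟨G', h, ih G' h⟩, fun G' h => ⟨G', h, ih G' h⟩⟩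

theorem Same.isP_iff {G H : Game} (h : Same G H) : IsP G ↔ IsP H := by
  induction G using option_induction generalizing H with
  | h G ih =>
    rw [same_iff] at h
    obtain ⟨h1, h2⟩ := h
    rw [Game.isP_iff G, Game.isP_iff H]
    constructor
    · rintro ⟨⟨G', hG'⟩, h3⟩
      obtain ⟨H', hH', _⟩ := h1 G' hG'
      refine ⟨⟨H', hH'⟩, fun H' hH' hP => ?_⟩
      obtain ⟨G', hG', hs⟩ := h2 H' hH'
      exact h3 G' hG' ((ih G' hG' hs).2 hP)
    · rintro ⟨⟨H', hH'⟩, h3⟩
      obtain ⟨G', hG', _⟩ := h2 H' hH'
      refine ⟨⟨G', hG'⟩, fun G' hG' hP => ?_⟩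
      obtain ⟨H', hH', hs⟩ := h1 G' hG'
      exact h3 H' hH' ((ih G' hG' hs).1 hP)

theorem same_comm (G H : Game) : Same (G + H) (H + G) := by
  induction G using option_induction generalizing H with
  | h G ihG =>
    induction H using option_induction with
    | h H ihH =>
      rw [same_iff]
      constructor
      · intro K hK
        rw [isOption_add] at hK
        rcases hK with ⟨G', hG', rfl⟩ | ⟨H', hH', rfl⟩
        · exact ⟨H + G', (isOption_add _ _ _).2 (Or.inr ⟨G', hG', rfl⟩), ihG G' hG' H⟩
        · exact ⟨H' + G, (isOption_add _ _ _).2 (Or.inl ⟨H', hH', rfl⟩), ihH H' hH'⟩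
      · intro K hK
        rw [isOption_add] at hK
        rcases hK with ⟨H', hH', rfl⟩ | ⟨G', hG', rfl⟩
        · exact ⟨G + H', (isOption_add _ _ _).2 (Or.inr ⟨H', hH', rfl⟩), ihH H' hH'⟩
        · exact ⟨G' + H, (isOption_add _ _ _).2 (Or.inl ⟨G', hG', rfl⟩), ihG G' hG' H⟩

theorem same_assoc (G H K : Game) : Same (G + H + K) (G + (H + K)) := by
  induction G using option_induction generalizing H K with
  | h G ihG =>
    induction H using option_induction generalizing K with
    | h H ihH =>
      induction K using option_induction with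
      | h K ihK =>
        rw [same_iff]
        constructor
        · intro L hL
          rw [isOption_add] at hL
          rcases hL with ⟨L', hL', rfl⟩ | ⟨K', hK', rfl⟩
          · rw [isOption_add] at hL'
            rcases hL' with ⟨G', hG', rfl⟩ | ⟨H', hH', rfl⟩
            · exact ⟨G' + (H + K), (isOption_add _ _ _).2 (Or.inl ⟨G', hG', rfl⟩),
                ihG G' hG' H K⟩
            · exact ⟨G + (H' + K), (isOption_add _ _ _).2 (Or.inr ⟨H' + K,
                (isOption_add _ _ _).2 (Or.inl ⟨H', hH', rfl⟩), rfl⟩), ihH H' hH' K⟩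
          · exact ⟨G + (H + K'), (isOption_add _ _ _).2 (Or.inr ⟨H + K',
                (isOption_add _ _ _).2 (Or.inr ⟨K', hK', rfl⟩), rfl⟩), ihK K' hK'⟩
        · intro L hL
          rw [isOption_add] at hL
          rcases hL with ⟨G', hG', rfl⟩ | ⟨L', hL', rfl⟩
          · exact ⟨G' + H + K, (isOption_add _ _ _).2 (Or.inl ⟨G' + H,
              (isOption_add _ _ _).2 (Or.inl ⟨G', hG', rfl⟩), rfl⟩), ihG G' hG' H K⟩
          · rw [isOption_add] at hL'
            rcases hL' with ⟨H', hH', rfl⟩ | ⟨K', hK', rfl⟩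
            · exact ⟨G + H' + K, (isOption_add _ _ _).2 (Or.inl ⟨G + H',
                (isOption_add _ _ _).2 (Or.inr ⟨H', hH', rfl⟩), rfl⟩), ihH H' hH' K⟩
            · exact ⟨G + H + K', (isOption_add _ _ _).2 (Or.inr ⟨K', hK', rfl⟩), ihK K' hK'⟩

theorem same_zero_add (G : Game) : Same (0 + G) G := by
  induction G using option_induction with
  | h G ih =>
    rw [same_iff]
    constructor
    · intro K hK
      rw [isOption_add] at hK
      rcases hK with ⟨G', hG', _⟩ | ⟨G', hG', rfl⟩
      · exact absurd hG' (not_isOption_zero G')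
      · exact ⟨G', hG', ih G' hG'⟩
    · intro G' hG'
      exact ⟨0 + G', (isOption_add _ _ _).2 (Or.inr ⟨G', hG', rfl⟩), ih G' hG'⟩

theorem Same.add_right {G H : Game} (h : Same G H) (K : Game) : Same (G + K) (H + K) := by
  induction G using option_induction generalizing H K with
  | h G ihG =>
    induction K using option_induction with
    | h K ihK =>
      have h' := (same_iff _ _).1 h
      rw [same_iff]
      constructor
      · intro L hL
        rw [isOption_add] at hL
        rcases hL with ⟨G', hG', rfl⟩ | ⟨K', hK', rfl⟩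
        · obtain ⟨H', hH', hs⟩ := h'.1 G' hG'
          exact ⟨H' + K, (isOption_add _ _ _).2 (Or.inl ⟨H', hH', rfl⟩), ihG G' hG' hs K⟩
        · exact ⟨H + K', (isOption_add _ _ _).2 (Or.inr ⟨K', hK', rfl⟩), ihK K' hK'⟩
      · intro L hL
        rw [isOption_add] at hL
        rcases hL with ⟨H', hH', rfl⟩ | ⟨K', hK', rfl⟩
        · obtain ⟨G', hG', hs⟩ := h'.2 H' hH'
          exact ⟨G' + K, (isOption_add _ _ _).2 (Or.inl ⟨G', hG', rfl⟩), ihG G' hG' hs K⟩
        · exact ⟨G + K', (isOption_add _ _ _).2 (Or.inr ⟨K', hK', rfl⟩), ihK K' hK'⟩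

end Game

open Game

/-- A nonempty set of games closed under sums and under taking options. -/
structure ClosedSet where
  /-- the underlying set of games -/
  carrier : Set Game
  nonempty : carrier.Nonempty
  add_mem : ∀ G ∈ carrier, ∀ H ∈ carrier, G + H ∈ carrier
  option_mem : ∀ G ∈ carrier, ∀ H, IsOption H G → H ∈ carrier

theorem eq_zero_of_fin_zero (f : Fin 0 → Game) : Game.mk 0 f = 0 := by
  change Game.mk 0 f = Game.mk 0 Fin.elim0
  congr
  funext i
  exact i.elim0

theorem ClosedSet.zero_mem (A : ClosedSet) : (0 : Game) ∈ A.carrier := by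
  have key : ∀ G : Game, G ∈ A.carrier → (0 : Game) ∈ A.carrier := by
    intro G
    induction G using option_induction with
    | h G ih =>
      intro hG
      cases G with | mk n f => ?_
      rcases Nat.eq_zero_or_pos n with rfl | hn
      · rwa [eq_zero_of_fin_zero] at hG
      · exact ih (f ⟨0, hn⟩) ⟨_, rfl⟩ (A.option_mem _ hG _ ⟨_, rfl⟩)
  obtain ⟨G, hG⟩ := A.nonempty
  exact key G hG

/-- Equivalence modulo `A`: `G` and `H` are equivalent if `G + X` and `H + X` have the same misere
outcome for every `X` in `A`. -/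
def ClosedSet.setoid (A : ClosedSet) : Setoid A.carrier where
  r G H := ∀ X : A.carrier, IsP (G.1 + X.1) ↔ IsP (H.1 + X.1)
  iseqv := ⟨fun _ _ => Iff.rfl, fun h X => (h X).symm, fun h1 h2 X => (h1 X).trans (h2 X)⟩

/-- The misere quotient of a closed set of games. -/
def MisereQuotient (A : ClosedSet) : Type := Quotient A.setoid

/-- The class of a game in the misere quotient. -/
def cls (A : ClosedSet) (G : A.carrier) : MisereQuotient A := Quotient.mk A.setoid G

instance (A : ClosedSet) : Add (MisereQuotient A) where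
  add := Quotient.map₂ (fun G H => ⟨G.1 + H.1, A.add_mem _ G.2 _ H.2⟩) (by
    intro G G' hG H H' hH X
    have e1 : IsP (G.1 + H.1 + X.1) ↔ IsP (G'.1 + H.1 + X.1) := by
      rw [(same_assoc _ _ _).isP_iff, (same_assoc _ _ _).isP_iff]
      exact hG ⟨H.1 + X.1, A.add_mem _ H.2 _ X.2⟩
    have e2 : IsP (G'.1 + H.1 + X.1) ↔ IsP (G'.1 + H'.1 + X.1) := by
      rw [((same_comm G'.1 H.1).add_right X.1).isP_iff, (same_assoc _ _ _).isP_iff,
        ((same_comm G'.1 H'.1).add_right X.1).isP_iff, (same_assoc _ _ _).isP_iff]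
      exact hH ⟨G'.1 + X.1, A.add_mem _ G'.2 _ X.2⟩
    exact e1.trans e2)

instance (A : ClosedSet) : Zero (MisereQuotient A) where
  zero := cls A ⟨(0 : Game), A.zero_mem⟩

/-- The misere quotient is a commutative monoid: classes are added through representatives, and
the identity is the class of the empty game. -/
instance (A : ClosedSet) : AddCommMonoid (MisereQuotient A) where
  add_assoc := by
    rintro ⟨G⟩ ⟨H⟩ ⟨K⟩
    exact Quotient.sound (fun X => ((same_assoc G.1 H.1 K.1).add_right X.1).isP_iff)
  add_comm := by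
    rintro ⟨G⟩ ⟨H⟩
    exact Quotient.sound (fun X => ((same_comm G.1 H.1).add_right X.1).isP_iff)
  zero_add := by
    rintro ⟨G⟩
    exact Quotient.sound (fun X => ((same_zero_add G.1).add_right X.1).isP_iff)
  add_zero := by
    rintro ⟨G⟩
    refine Quotient.sound (fun X => ?_)
    exact ((same_comm G.1 (0 : Game)).add_right X.1).isP_iff.trans
      ((same_zero_add G.1).add_right X.1).isP_iff
  nsmul := nsmulRec

/-- `p` is the period of the element `x` of a commutative monoid: the least positive integer `p`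
such that `(m + p) x = m x` for some positive integer `m`. -/
def HasPeriod {Q : Type} [AddCommMonoid Q] (x : Q) (p : ℕ) : Prop :=
  IsLeast {p : ℕ | 1 ≤ p ∧ ∃ m : ℕ, 1 ≤ m ∧ (m + p) • x = m • x} p

end Pool.Agent.Lib.MP_bc0e65_co
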