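import Pool.Agent.Lib.MP_bc0e65_co.Rep

/-!
A family of rule systems with elements of period `2 (m + 2)`: the rules and the outcome function.

Generators: `0 = *`, `1 = *2`, `2 = {*2}`, `3` and `4` (values 4 and 8, all options contain `2`),
`5, 6, 7, 8` (values 0, 4, 4, 8), `9, …, 8 + m` (value 4) and `9 + m` (value 0).
-/

namespace Pool.Agent.Lib.MP_bc0e65_co

/-- The sum of the generator `2` and of the generators `0, 1, 3, 4` given by the binary digits of
`u`. -/
def dopt (u : ℕ) : List ℕ :=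
  2 :: ((if u % 2 = 1 then [0] else []) ++ (if u / 2 % 2 = 1 then [1] else []) ++
    (if u / 4 % 2 = 1 then [3] else []) ++ (if u / 8 % 2 = 1 then [4] else []))

/-- The options `dopt (f z)` for all `z < 16` except `0` and the members of `U`. -/
def cover (f : ℕ → ℕ) (U : List ℕ) : List (List ℕ) :=
  ((List.range 16).filter (fun z => decide (z ≠ 0 ∧ z ∉ U))).map (fun z => dopt (f z))

/-- Toggle the binary digit `4`. -/
def tog4 (z : ℕ) : ℕ := z / 8 * 8 + (z + 4) % 8

/-- Toggle the binary digit `8`. -/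
def tog8 (z : ℕ) : ℕ := (z + 8) % 16

/-- The rules. -/
def fam (m : ℕ) : ℕ → List (List ℕ)
  | 0 => [[]]
  | 1 => [[], [0]]
  | 2 => [[1]]
  | 3 => (List.range 4).map dopt
  | 4 => (List.range 8).map dopt
  | 5 => [0] :: cover id []
  | 6 => [0, 5] :: cover tog4 [1, 5]
  | 7 => [0, 6] :: cover tog4 []
  | 8 => [5] :: [0, 5] :: [7] :: [0, 7] :: cover tog8 [8, 9, 12, 13]
  | n + 9 =>
    if n < m then (if n = 0 then [0] else [0, n + 8]) :: cover tog4 [1, 12, 13]
    else if n = m then [0] :: [n + 8] :: cover id [1, 8, 9, 12, 13]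
    else []

theorem mem_dopt {u x : ℕ} (h : x ∈ dopt u) : x = 2 ∨ (x = 0 ∧ u % 2 = 1) ∨
    (x = 1 ∧ u / 2 % 2 = 1) ∨ (x = 3 ∧ u / 4 % 2 = 1) ∨ (x = 4 ∧ u / 8 % 2 = 1) := by
  simp only [dopt, List.mem_cons, List.mem_append] at h
  rcases h with h | ((h | h) | h) | h
  · exact Or.inl h
  · split_ifs at h with h1
    · exact Or.inr (Or.inl ⟨by simpa using h, h1⟩)
    · simp at h
  · split_ifs at h with h1
    · exact Or.inr (Or.inr (Or.inl ⟨by simpa using h, h1⟩))
    · simp at h
  · split_ifs at h with h1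
    · exact Or.inr (Or.inr (Or.inr (Or.inl ⟨by simpa using h, h1⟩)))
    · simp at h
  · split_ifs at h with h1
    · exact Or.inr (Or.inr (Or.inr (Or.inr ⟨by simpa using h, h1⟩)))
    · simp at h

theorem mem_cover {f : ℕ → ℕ} {U : List ℕ} {w : List ℕ} : w ∈ cover f U ↔
    ∃ z, z < 16 ∧ z ≠ 0 ∧ z ∉ U ∧ dopt (f z) = w := by
  simp only [cover, List.mem_map, List.mem_filter, List.mem_range, decide_eq_true_eq]
  constructor
  · rintro ⟨z, ⟨h1, h2, h3⟩, rfl⟩
    exact ⟨z, h1, h2, h3, rfl⟩
  · rintro ⟨z, h1, h2, h3, rfl⟩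
    exact ⟨z, ⟨h1, h2, h3⟩, rfl⟩

theorem cover_lt {f : ℕ → ℕ} {U : List ℕ} {w : List ℕ} (h : w ∈ cover f U) {i x : ℕ}
    (hi : 5 ≤ i) (hx : x ∈ w) : x < i := by
  obtain ⟨z, _, _, _, rfl⟩ := mem_cover.1 h
  rcases mem_dopt hx with h | h | h | h | h <;> omega

theorem fam_lower (m : ℕ) : Lower (fam m) := by
  intro i w hw x hx
  match i with
  | 0 =>
    simp only [fam, List.mem_singleton] at hw
    subst hw
    simp at hx
  | 1 =>
    simp only [fam, List.mem_cons, List.not_mem_nil, or_false] at hw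
    rcases hw with rfl | rfl
    · simp at hx
    · simp only [List.mem_singleton] at hx
      omega
  | 2 =>
    simp only [fam, List.mem_singleton] at hw
    subst hw
    simp only [List.mem_singleton] at hx
    omega
  | 3 =>
    simp only [fam, List.mem_map, List.mem_range] at hw
    obtain ⟨u, hu, rfl⟩ := hw
    rcases mem_dopt hx with h | h | h | h | h <;> omega
  | 4 =>
    simp only [fam, List.mem_map, List.mem_range] at hw
    obtain ⟨u, hu, rfl⟩ := hw
    rcases mem_dopt hx with h | h | h | h | h <;> omega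
  | 5 =>
    simp only [fam, List.mem_cons] at hw
    rcases hw with rfl | hw
    · simp only [List.mem_singleton] at hx
      omega
    · exact cover_lt hw (by omega) hx
  | 6 =>
    simp only [fam, List.mem_cons] at hw
    rcases hw with rfl | hw
    · simp only [List.mem_cons, List.not_mem_nil, or_false] at hx
      omega
    · exact cover_lt hw (by omega) hx
  | 7 =>
    simp only [fam, List.mem_cons] at hw
    rcases hw with rfl | hw
    · simp only [List.mem_cons, List.not_mem_nil, or_false] at hx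
      omega
    · exact cover_lt hw (by omega) hx
  | 8 =>
    simp only [fam, List.mem_cons] at hw
    rcases hw with rfl | rfl | rfl | rfl | hw
    · simp only [List.mem_cons, List.not_mem_nil, or_false] at hx
      omega
    · simp only [List.mem_cons, List.not_mem_nil, or_false] at hx
      omega
    · simp only [List.mem_cons, List.not_mem_nil, or_false] at hx
      omega
    · simp only [List.mem_cons, List.not_mem_nil, or_false] at hx
      omega
    · exact cover_lt hw (by omega) hx
  | n + 9 =>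
    simp only [fam] at hw
    split_ifs at hw with h1 h2 h3
    · simp only [List.mem_cons] at hw
      rcases hw with rfl | hw
      · simp only [List.mem_singleton] at hx
        omega
      · exact cover_lt hw (by omega) hx
    · simp only [List.mem_cons] at hw
      rcases hw with rfl | hw
      · simp only [List.mem_cons, List.not_mem_nil, or_false] at hx
        omega
      · exact cover_lt hw (by omega) hx
    · simp only [List.mem_cons] at hw
      rcases hw with rfl | rfl | hw
      · simp only [List.mem_cons, List.not_mem_nil, or_false] at hx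
        omega
      · simp only [List.mem_cons, List.not_mem_nil, or_false] at hx
        omega
      · exact cover_lt hw (by omega) hx
    · simp at hw

/-! ### Additive features of a position -/

/-- The value of an additive weight on a multiset. -/
def ev (wt : ℕ → ℕ) (v : Multiset ℕ) : ℕ := (v.map wt).sum

theorem ev_eq_of_mem (wt : ℕ → ℕ) {v : Multiset ℕ} {i : ℕ} (hi : i ∈ v) :
    ev wt v = wt i + ev wt (v.erase i) := by
  conv_lhs => rw [← Multiset.cons_erase hi]
  simp [ev]

theorem ev_move (wt : ℕ → ℕ) {v : Multiset ℕ} {i : ℕ} (hi : i ∈ v) (w : List ℕ) :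
    ev wt (v.erase i + (w : Multiset ℕ)) = ev wt v - wt i + (w.map wt).sum := by
  have h := ev_eq_of_mem wt hi
  have h2 : ev wt (v.erase i + (w : Multiset ℕ)) = ev wt (v.erase i) + (w.map wt).sum := by
    simp [ev]
  omega

theorem le_ev_of_mem (wt : ℕ → ℕ) {v : Multiset ℕ} {i : ℕ} (hi : i ∈ v) : wt i ≤ ev wt v := by
  have h := ev_eq_of_mem wt hi
  omega

theorem exists_of_ev_pos (wt : ℕ → ℕ) {v : Multiset ℕ} (h : 1 ≤ ev wt v) :
    ∃ i ∈ v, 1 ≤ wt i := by
  by_contra hcon
  push Not at hcon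
  have : ev wt v = 0 := by
    unfold ev
    rw [Multiset.sum_eq_zero_iff]
    intro x hx
    rw [Multiset.mem_map] at hx
    obtain ⟨i, hi, rfl⟩ := hx
    have := hcon i hi
    omega
  omega

theorem ev_mono (wt wt' : ℕ → ℕ) (c : ℕ) (v : Multiset ℕ) (h : ∀ i, wt i ≤ c * wt' i) :
    ev wt v ≤ c * ev wt' v := by
  induction v using Multiset.induction with
  | empty => simp [ev]
  | cons i v ih =>
    have := h i
    simp only [ev, Multiset.map_cons, Multiset.sum_cons] at ih ⊢
    nlinarith

/-- The weight that counts the generator `j`. -/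
def one (j : ℕ) : ℕ → ℕ := fun i => if i = j then 1 else 0

/-- The weight that counts the generators `9, …, 8 + m`. -/
def wY (m : ℕ) : ℕ → ℕ := fun i => if 9 ≤ i ∧ i < 9 + m then 1 else 0

/-- The weight that sums the numbers `i` of the generators `8 + i` with `1 ≤ i ≤ m`. -/
def wS (m : ℕ) : ℕ → ℕ := fun i => if 9 ≤ i ∧ i < 9 + m then i - 8 else 0

theorem mem_of_one {j : ℕ} {v : Multiset ℕ} (h : 1 ≤ ev (one j) v) : j ∈ v := by
  obtain ⟨i, hi, h1⟩ := exists_of_ev_pos _ h
  unfold one at h1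
  split_ifs at h1 with h2
  · rwa [h2] at hi
  · omega

theorem one_of_mem {j : ℕ} {v : Multiset ℕ} (h : j ∈ v) : 1 ≤ ev (one j) v := by
  have := le_ev_of_mem (one j) h
  simpa [one] using this

/-- The part of the outcome function that is concerned with the automaton of period `2 (m+2)`. -/
def kap (m a s x : ℕ) : ℕ :=
  if (x + m + 1 - s) % (m + 2) ≠ 0 ∧ (x + m + 1 - s) / (m + 2) % 2 = a % 2 then 1 else 0

/-- Positions all of whose outcomes are as in normal play. -/
def Ded (b r p q c5 c6 c7 c8 y : ℕ) : Prop :=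
  1 ≤ b + r + p + q ∨ 2 ≤ y ∨
    ¬ ((c5 ≤ 1 ∧ c6 ≤ 1 ∧ c7 + c8 = 0) ∨ (c5 + c6 = 0 ∧ c7 + c8 = 1))

/-- The outcome function in terms of the features. -/
def SF (m a b r p q c5 c6 c7 c8 y s x : ℕ) : Prop :=
  (Ded b r p q c5 c6 c7 c8 y ∧ a % 2 = 0 ∧ b % 2 = 0 ∧ (p + c6 + c7 + y) % 2 = 0 ∧
    (q + c8) % 2 = 0) ∨
  (¬ Ded b r p q c5 c6 c7 c8 y ∧ ((c5 + c6 + c7 + c8 = 0 ∧ y = 0 ∧ a % 2 = 1) ∨
    (c5 = 0 ∧ c6 = 1 ∧ a % 2 = 1 ∧ (y = 1 ∨ x = 0)) ∨ (c8 = 1 ∧ kap m a s x = 1)))

/-- The outcome function. -/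
def Sm (m : ℕ) (v : Multiset ℕ) : Prop :=
  SF m (ev (one 0) v) (ev (one 1) v) (ev (one 2) v) (ev (one 3) v) (ev (one 4) v)
    (ev (one 5) v) (ev (one 6) v) (ev (one 7) v) (ev (one 8) v) (ev (wY m) v) (ev (wS m) v)
    (ev (one (9 + m)) v)

/-- The outcome of a position after a move of the generator `i` to the sum `w`. -/
def SA (m : ℕ) (v : Multiset ℕ) (i : ℕ) (w : List ℕ) : Prop :=
  SF m (ev (one 0) v - one 0 i + (w.map (one 0)).sum)
    (ev (one 1) v - one 1 i + (w.map (one 1)).sum)
    (ev (one 2) v - one 2 i + (w.map (one 2)).sum)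
    (ev (one 3) v - one 3 i + (w.map (one 3)).sum)
    (ev (one 4) v - one 4 i + (w.map (one 4)).sum)
    (ev (one 5) v - one 5 i + (w.map (one 5)).sum)
    (ev (one 6) v - one 6 i + (w.map (one 6)).sum)
    (ev (one 7) v - one 7 i + (w.map (one 7)).sum)
    (ev (one 8) v - one 8 i + (w.map (one 8)).sum)
    (ev (wY m) v - wY m i + (w.map (wY m)).sum)
    (ev (wS m) v - wS m i + (w.map (wS m)).sum)
    (ev (one (9 + m)) v - one (9 + m) i + (w.map (one (9 + m))).sum)

theorem Sm_move (m : ℕ) {v : Multiset ℕ} {i : ℕ} (hi : i ∈ v) (w : List ℕ) :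
    Sm m (v.erase i + (w : Multiset ℕ)) ↔ SA m v i w := by
  unfold Sm SA
  simp only [ev_move _ hi]

end Pool.Agent.Lib.MP_bc0e65_co
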