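import Pool.Agent.Lib.MP_bc0e65_co.Table

/-!
Misere quotients containing elements of periods 5, 8 (and 7, 10, 12, 14, 16).
-/

namespace Pool.Agent.Lib.MP_bc0e65_co

/-- Generators `0 = *`, `1 = *2`, `2 = {*2, *, *2 + *, *2 + *2 + *}`, `3 = {0, *2, 2 + *}`. -/
def eightOpts : ℕ → List (List ℕ)
  | 0 => [[]]
  | 1 => [[], [0]]
  | 2 => [[1], [0], [0, 1], [0, 1, 1]]
  | 3 => [[], [1], [0, 2]]
  | _ => []

theorem eight_lower : Lower eightOpts := by
  intro i
  match i with
  | 0 => decide
  | 1 => decide
  | 2 => decide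
  | 3 => decide
  | n + 4 =>
    intro w hw
    simp [eightOpts] at hw

theorem eight_four (i : ℕ) (hi : 4 ≤ i) : eightOpts i = [] := by
  obtain ⟨n, rfl⟩ := Nat.exists_eq_add_of_le' hi
  rfl

/-- The table of outcomes of `eightOpts`. -/
def eightTab : Tab where
  m0 := 0
  p0 := 2
  m1 := 5
  p1 := 2
  m2 := 3
  p2 := 1
  m3 := 0
  p3 := 8
  mask := 0x2220888220088444451114405041222088020408124445111440112122208882200812444511144411042220888220488144451114441112

theorem eight_ok : eightTab.ok eightOpts = true := by decide +kernel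

theorem eight_period : HasPeriod (mcls eightOpts eight_lower (1 • {3})) 8 := by
  refine eightTab.hasPeriod eightOpts eight_lower eight_four eight_ok ([0, 1, 1, 1, 2] : List ℕ) 1 8
    (by decide) (by decide) (by decide) ?_
  decide +kernel

/-- Generators `0 = *`, `1 = *2`, `2 = {*2, *, *2 + *2 + *, *2 + *2 + *2 + *}`, `3 = {2, *2, *}`. -/
def tenOpts : ℕ → List (List ℕ)
  | 0 => [[]]
  | 1 => [[], [0]]
  | 2 => [[1], [0], [0, 1, 1], [0, 1, 1, 1]]
  | 3 => [[2], [1], [0]]
  | _ => []

theorem ten_lower : Lower tenOpts := by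
  intro i
  match i with
  | 0 => decide
  | 1 => decide
  | 2 => decide
  | 3 => decide
  | n + 4 =>
    intro w hw
    simp [tenOpts] at hw

theorem ten_four (i : ℕ) (hi : 4 ≤ i) : tenOpts i = [] := by
  obtain ⟨n, rfl⟩ := Nat.exists_eq_add_of_le' hi
  rfl

/-- The table of outcomes of `tenOpts`. -/
def tenTab : Tab where
  m0 := 0
  p0 := 2
  m1 := 4
  p1 := 2
  m2 := 5
  p2 := 1
  m3 := 1
  p3 := 10
  mask := 0x111110110111110112888882882880880812111110112104104104888888882882882882111111110110110112888888882882880812111111110112104104888888888882882884111111111110112104888888888888882882111111111111110112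

theorem ten_ok : tenTab.ok tenOpts = true := by decide +kernel

theorem ten_period : HasPeriod (mcls tenOpts ten_lower (2 • {3})) 5 := by
  refine tenTab.hasPeriod tenOpts ten_lower ten_four ten_ok ([0, 1, 1, 1] : List ℕ) 2 5
    (by decide) (by decide) (by decide) ?_
  decide +kernel

end Pool.Agent.Lib.MP_bc0e65_co
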