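import Pool.Agent.Lib.MP_bc0e65_co.Fam

/-!
The arithmetic of the outcome function `SF`.
-/

namespace Pool.Agent.Lib.MP_bc0e65_co

/-! ### The automaton -/

/-- The predicate behind `kap`. -/
def KK (M e t : ℕ) : Prop := t % M ≠ 0 ∧ t / M % 2 = e % 2

theorem kap_eq_one (m a s x : ℕ) : kap m a s x = 1 ↔ KK (m + 2) a (x + m + 1 - s) := by
  unfold kap KK
  split_ifs with h
  · simp [h]
  · simp only [false_iff]
    exact h

theorem dm (M q ρ : ℕ) (h : ρ < M) : (M * q + ρ) / M = q ∧ (M * q + ρ) % M = ρ := by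
  constructor
  · rw [Nat.mul_add_div (by omega), Nat.div_eq_of_lt h, add_zero]
  · rw [Nat.mul_add_mod, Nat.mod_eq_of_lt h]

theorem KK_iff (M e q ρ : ℕ) (h : ρ < M) : KK M e (M * q + ρ) ↔ ρ ≠ 0 ∧ q % 2 = e % 2 := by
  obtain ⟨h1, h2⟩ := dm M q ρ h
  unfold KK
  rw [h1, h2]

theorem exists_dm (M t : ℕ) (h : 0 < M) : ∃ q ρ, ρ < M ∧ t = M * q + ρ :=
  ⟨t / M, t % M, Nat.mod_lt _ h, (Nat.div_add_mod t M).symm⟩

theorem KK_succ (M e e' t : ℕ) (hM : 3 ≤ M) (he : (e + e') % 2 = 1) (h : KK M e t) :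
    ¬ KK M e' (t + 1) := by
  obtain ⟨q, ρ, hρ, rfl⟩ := exists_dm M t (by omega)
  rw [KK_iff _ _ _ _ hρ] at h
  rcases Nat.lt_or_ge (ρ + 1) M with h1 | h1
  · rw [add_assoc, KK_iff _ _ _ _ h1]
    omega
  · have e1 : M * q + ρ + 1 = M * (q + 1) + 0 := by
      have : ρ + 1 = M := by omega
      rw [add_assoc, this]
      ring
    rw [e1, KK_iff _ _ _ _ (by omega)]
    omega

theorem KK_same (M e e' t : ℕ) (he : (e + e') % 2 = 1) (h : KK M e t) :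
    ¬ KK M e' t := by
  unfold KK at *
  omega

theorem KK_pred (M e e' t : ℕ) (hM : 3 ≤ M) (he : (e + e') % 2 = 1) (h : KK M e (t + 1)) :
    ¬ KK M e' t := by
  intro h'
  exact KK_succ M e' e t hM (by omega) h' h

theorem KK_sub (M e e' t : ℕ) (hM : 3 ≤ M) (he : (e + e') % 2 = 0) (h : KK M e (t + (M - 1))) :
    ¬ KK M e' t := by
  obtain ⟨q, ρ, hρ, rfl⟩ := exists_dm M t (by omega)
  rcases Nat.eq_zero_or_pos ρ with h0 | h0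
  · rw [KK_iff _ _ _ _ hρ]
    omega
  · have e1 : M * q + ρ + (M - 1) = M * (q + 1) + (ρ - 1) := by
      have : ρ + (M - 1) = M + (ρ - 1) := by omega
      rw [add_assoc, this]
      ring
    rw [e1, KK_iff _ _ _ _ (by omega)] at h
    rw [KK_iff _ _ _ _ hρ]
    omega

/-- In the automaton every position outside the kernel has a move into it. -/
theorem KK_exists (m a s x y : ℕ) (hm : 1 ≤ m) (hy : y ≤ 1) (hs : s ≤ m) (hy0 : y = 0 → s = 0)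
    (hy1 : y = 1 → 1 ≤ s) (h : kap m a s x ≠ 1) :
    (1 ≤ a ∧ kap m (a - 1) s x = 1) ∨ (y = 1 ∧ kap m (a + 1) (s - 1) x = 1) ∨
    (1 ≤ x ∧ kap m (a + 1) s (x - 1) = 1) ∨ (y = 0 ∧ 1 ≤ x ∧ kap m a m (x - 1) = 1) := by
  simp only [kap_eq_one, ne_eq] at *
  obtain ⟨q, ρ, hρ, ht⟩ := exists_dm (m + 2) (x + m + 1 - s) (by omega)
  rw [ht, KK_iff _ _ _ _ hρ] at h
  have hq : q = 0 ∨ m + 2 ≤ (m + 2) * q := by
    rcases Nat.eq_zero_or_pos q with h0 | h0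
    · exact Or.inl h0
    · exact Or.inr (Nat.le_mul_of_pos_right _ h0)
  -- the four kinds of moves, with the new value of `t`
  have c1 : 1 ≤ a → (ρ ≠ 0 ∧ q % 2 = (a + 1) % 2) → KK (m + 2) (a - 1) (x + m + 1 - s) := by
    intro ha h1
    rw [ht, KK_iff _ _ _ _ hρ]
    omega
  have c2 : y = 1 → (ρ + 1 < m + 2 ∧ q % 2 = (a + 1) % 2) →
      KK (m + 2) (a + 1) (x + m + 1 - (s - 1)) := by
    intro h0 h1
    have := hy1 h0
    have e1 : x + m + 1 - (s - 1) = (m + 2) * q + (ρ + 1) := by omega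
    rw [e1, KK_iff _ _ _ _ h1.1]
    omega
  have c3 : 1 ≤ x → (2 ≤ ρ ∧ q % 2 = (a + 1) % 2) → KK (m + 2) (a + 1) (x - 1 + m + 1 - s) := by
    intro h0 h1
    have e1 : x - 1 + m + 1 - s = (m + 2) * q + (ρ - 1) := by omega
    rw [e1, KK_iff _ _ _ _ (by omega)]
    omega
  have c4 : 1 ≤ x → (ρ = 0 ∧ 1 ≤ q ∧ q % 2 = a % 2) →
      KK (m + 2) (a + 1) (x - 1 + m + 1 - s) := by
    intro h0 h1
    obtain ⟨h1, h2, h3⟩ := h1
    obtain ⟨q', rfl⟩ := Nat.exists_eq_add_of_le' h2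
    have e2 : (m + 2) * (q' + 1) = (m + 2) * q' + (m + 2) := by ring
    have e1 : x - 1 + m + 1 - s = (m + 2) * q' + (m + 1) := by omega
    rw [e1, KK_iff _ _ _ _ (by omega)]
    omega
  have c5 : y = 0 → 1 ≤ x → (ρ ≤ m ∧ 1 ≤ q ∧ (q + 1) % 2 = a % 2) →
      KK (m + 2) a (x - 1 + m + 1 - m) := by
    intro h00 h0 h1
    obtain ⟨h1, h2, h3⟩ := h1
    obtain ⟨q', rfl⟩ := Nat.exists_eq_add_of_le' h2
    have e2 : (m + 2) * (q' + 1) = (m + 2) * q' + (m + 2) := by ring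
    have := hy0 h00
    have e1 : x - 1 + m + 1 - m = (m + 2) * q' + (ρ + 1) := by omega
    rw [e1, KK_iff _ _ _ _ (by omega)]
    omega
  have hq1 : ρ = 0 → 1 ≤ q := by
    intro h0
    clear c1 c2 c3 c4 c5
    rcases hq with h1 | h1
    · subst h1
      rw [Nat.mul_zero] at ht
      omega
    · by_contra hc
      have : q = 0 := by omega
      subst this
      omega
  have hx : 1 ≤ q → 1 ≤ x := by
    intro h0
    clear c1 c2 c3 c4 c5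
    rcases hq with h1 | h1 <;> omega
  by_cases hρ0 : ρ = 0
  · -- `t` is a multiple of `m + 2`
    have hq1 := hq1 hρ0
    have hx := hx hq1
    by_cases hpar : q % 2 = a % 2
    · exact Or.inr (Or.inr (Or.inl ⟨hx, c4 hx ⟨hρ0, hq1, hpar⟩⟩))
    · clear c1 c3 c4 ht hq h
      rcases Nat.eq_zero_or_pos y with hy' | hy'
      · clear c2
        exact Or.inr (Or.inr (Or.inr ⟨hy', hx, c5 hy' hx ⟨by omega, hq1, by omega⟩⟩))
      · clear c5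
        have hy2 : y = 1 := by omega
        exact Or.inr (Or.inl ⟨hy2, c2 hy2 ⟨by omega, by omega⟩⟩)
  · have hpar : q % 2 = (a + 1) % 2 := by
      have : ¬ (q % 2 = a % 2) := fun h' => h ⟨hρ0, h'⟩
      clear c1 c2 c3 c4 c5 ht hq h
      omega
    rcases Nat.eq_zero_or_pos a with ha | ha
    · -- `q` is odd
      clear c1 c4 ht hq h
      have hq1 : 1 ≤ q := by
        clear c2 c3 c5
        omega
      have hx := hx hq1
      by_cases hρ1 : 2 ≤ ρ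
      · exact Or.inr (Or.inr (Or.inl ⟨hx, c3 hx ⟨hρ1, hpar⟩⟩))
      · clear c3
        rcases Nat.eq_zero_or_pos y with hy' | hy'
        · clear c2
          exact Or.inr (Or.inr (Or.inr ⟨hy', hx, c5 hy' hx ⟨by omega, hq1, by omega⟩⟩))
        · clear c5
          have hy2 : y = 1 := by omega
          exact Or.inr (Or.inl ⟨hy2, c2 hy2 ⟨by omega, hpar⟩⟩)
    · exact Or.inl ⟨ha, c1 ha ⟨hρ0, hpar⟩⟩

theorem kap_a {m a s x : ℕ} (ha : 1 ≤ a) (h : kap m a s x = 1) : kap m (a - 1) s x ≠ 1 := by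
  rw [kap_eq_one] at h
  rw [ne_eq, kap_eq_one]
  exact KK_same _ _ _ _ (by omega) h

theorem kap_y {m a s x : ℕ} (hm : 1 ≤ m) (hs1 : 1 ≤ s) (hs : s ≤ m) (h : kap m a s x = 1) :
    kap m (a + 1) (s - 1) x ≠ 1 := by
  rw [kap_eq_one] at h
  rw [ne_eq, kap_eq_one]
  have e : x + m + 1 - (s - 1) = x + m + 1 - s + 1 := by omega
  rw [e]
  exact KK_succ _ _ _ _ (by omega) (by omega) h

theorem kap_xa {m a s x : ℕ} (hm : 1 ≤ m) (hx : 1 ≤ x) (hs : s ≤ m) (h : kap m a s x = 1) :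
    kap m (a + 1) s (x - 1) ≠ 1 := by
  rw [kap_eq_one] at h
  rw [ne_eq, kap_eq_one]
  have e : x + m + 1 - s = x - 1 + m + 1 - s + 1 := by omega
  rw [e] at h
  exact KK_pred _ _ _ _ (by omega) (by omega) h

theorem kap_xy {m a x : ℕ} (hm : 1 ≤ m) (hx : 1 ≤ x) (h : kap m a 0 x = 1) :
    kap m a m (x - 1) ≠ 1 := by
  rw [kap_eq_one] at h
  rw [ne_eq, kap_eq_one]
  have e : x + m + 1 - 0 = x - 1 + m + 1 - m + (m + 2 - 1) := by omega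
  rw [e] at h
  exact KK_sub _ _ _ _ (by omega) (by omega) h

/-! ### Moves from a position with outcome `P` -/

variable {m a b r p q c5 c6 c7 c8 y s x : ℕ}

theorem P_a (h : SF m a b r p q c5 c6 c7 c8 y s x) (ha : 1 ≤ a) :
    ¬ SF m (a - 1) b r p q c5 c6 c7 c8 y s x := by
  have hk := @kap_a m a s x ha
  unfold SF Ded at *
  omega

theorem P_b0 (h : SF m a b r p q c5 c6 c7 c8 y s x) (hb : 1 ≤ b) :
    ¬ SF m a (b - 1) r p q c5 c6 c7 c8 y s x := by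
  unfold SF Ded at *
  omega

theorem P_ba (h : SF m a b r p q c5 c6 c7 c8 y s x) (hb : 1 ≤ b) :
    ¬ SF m (a + 1) (b - 1) r p q c5 c6 c7 c8 y s x := by
  unfold SF Ded at *
  omega

theorem P_r (h : SF m a b r p q c5 c6 c7 c8 y s x) (hr : 1 ≤ r) :
    ¬ SF m a (b + 1) (r - 1) p q c5 c6 c7 c8 y s x := by
  unfold SF Ded at *
  omega

theorem P_p (h : SF m a b r p q c5 c6 c7 c8 y s x) (hp : 1 ≤ p) {u : ℕ} (hu : u < 4) :
    ¬ SF m (a + u % 2) (b + u / 2 % 2) (r + 1) (p - 1 + u / 4 % 2) (q + u / 8 % 2) c5 c6 c7 c8 y s x := by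
  unfold SF Ded at *
  omega

theorem P_q (h : SF m a b r p q c5 c6 c7 c8 y s x) (hq : 1 ≤ q) {u : ℕ} (hu : u < 8) :
    ¬ SF m (a + u % 2) (b + u / 2 % 2) (r + 1) (p + u / 4 % 2) (q - 1 + u / 8 % 2) c5 c6 c7 c8 y s x := by
  unfold SF Ded at *
  omega

theorem P_5 (h : SF m a b r p q c5 c6 c7 c8 y s x) (h5 : 1 ≤ c5) :
    ¬ SF m (a + 1) b r p q (c5 - 1) c6 c7 c8 y s x := by
  unfold SF Ded at *
  omega

theorem P_6 (h : SF m a b r p q c5 c6 c7 c8 y s x) (h6 : 1 ≤ c6) :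
    ¬ SF m (a + 1) b r p q (c5 + 1) (c6 - 1) c7 c8 y s x := by
  unfold SF Ded at *
  omega

theorem P_7 (h : SF m a b r p q c5 c6 c7 c8 y s x) (h7 : 1 ≤ c7) :
    ¬ SF m (a + 1) b r p q c5 (c6 + 1) (c7 - 1) c8 y s x := by
  unfold SF Ded at *
  omega

theorem P_8a (h : SF m a b r p q c5 c6 c7 c8 y s x) (h8 : 1 ≤ c8) :
    ¬ SF m a b r p q (c5 + 1) c6 c7 (c8 - 1) y s x := by
  unfold SF Ded at *
  omega

theorem P_8b (h : SF m a b r p q c5 c6 c7 c8 y s x) (h8 : 1 ≤ c8) :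
    ¬ SF m (a + 1) b r p q (c5 + 1) c6 c7 (c8 - 1) y s x := by
  unfold SF Ded at *
  omega

theorem P_8c (h : SF m a b r p q c5 c6 c7 c8 y s x) (h8 : 1 ≤ c8) :
    ¬ SF m a b r p q c5 c6 (c7 + 1) (c8 - 1) y s x := by
  unfold SF Ded at *
  omega

theorem P_8d (h : SF m a b r p q c5 c6 c7 c8 y s x) (h8 : 1 ≤ c8) :
    ¬ SF m (a + 1) b r p q c5 c6 (c7 + 1) (c8 - 1) y s x := by
  unfold SF Ded at *
  omega

theorem P_y1 (h : SF m a b r p q c5 c6 c7 c8 y s x) (hm : 1 ≤ m) (hy : 1 ≤ y) (hs1 : 1 ≤ s)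
    (hs : y ≤ 1 → s ≤ m) :
    ¬ SF m (a + 1) b r p q c5 c6 c7 c8 (y - 1) (s - 1) x := by
  have hk := @kap_y m a s x hm hs1
  unfold SF Ded at *
  omega

theorem P_yi (h : SF m a b r p q c5 c6 c7 c8 y s x) (hm : 1 ≤ m) (hy : 1 ≤ y) (hs1 : 1 ≤ s)
    (hs : y ≤ 1 → s ≤ m) :
    ¬ SF m (a + 1) b r p q c5 c6 c7 c8 y (s - 1) x := by
  have hk := @kap_y m a s x hm hs1
  unfold SF Ded at *
  omega

theorem P_xa (h : SF m a b r p q c5 c6 c7 c8 y s x) (hm : 1 ≤ m) (hx : 1 ≤ x) (hs : y ≤ 1 → s ≤ m) :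
    ¬ SF m (a + 1) b r p q c5 c6 c7 c8 y s (x - 1) := by
  have hk := @kap_xa m a s x hm hx
  unfold SF Ded at *
  omega

theorem P_xy (h : SF m a b r p q c5 c6 c7 c8 y s x) (hm : 1 ≤ m) (hx : 1 ≤ x) (hs0 : y = 0 → s = 0) :
    ¬ SF m a b r p q c5 c6 c7 c8 (y + 1) (s + m) (x - 1) := by
  have hk : y = 0 → kap m a s x = 1 → kap m a (s + m) (x - 1) ≠ 1 := by
    intro h0
    rw [hs0 h0, Nat.zero_add]
    exact kap_xy hm hx
  unfold SF Ded at *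
  omega

/-! ### Covers -/

theorem SF_of_r (hr : 1 ≤ r) : SF m a b r p q c5 c6 c7 c8 y s x ↔
    a % 2 = 0 ∧ b % 2 = 0 ∧ (p + c6 + c7 + y) % 2 = 0 ∧ (q + c8) % 2 = 0 := by
  have hd : Ded b r p q c5 c6 c7 c8 y := Or.inl (by omega)
  unfold SF
  constructor
  · rintro (h | h)
    · exact h.2
    · exact absurd hd h.1
  · intro h
    exact Or.inl ⟨hd, h⟩

theorem digits_eq {z A B T Q : ℕ} (hz : z < 16) : (A % 2 = z % 2 ∧ B % 2 = z / 2 % 2 ∧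
    T % 2 = z / 4 % 2 ∧ Q % 2 = z / 8 % 2) ↔
    A % 2 + 2 * (B % 2) + 4 * (T % 2) + 8 * (Q % 2) = z := by
  interval_cases z <;> omega

theorem tog4_digits {z : ℕ} (hz : z < 16) : tog4 z % 2 = z % 2 ∧ tog4 z / 2 % 2 = z / 2 % 2 ∧
    tog4 z / 4 % 2 = 1 - z / 4 % 2 ∧ tog4 z / 8 % 2 = z / 8 % 2 := by
  interval_cases z <;> decide

theorem tog8_digits {z : ℕ} (hz : z < 16) : tog8 z % 2 = z % 2 ∧ tog8 z / 2 % 2 = z / 2 % 2 ∧
    tog8 z / 4 % 2 = z / 4 % 2 ∧ tog8 z / 8 % 2 = 1 - z / 8 % 2 := by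
  interval_cases z <;> decide

theorem parity_aux (A d : ℕ) : (A + d % 2) % 2 = 0 ↔ A % 2 = d % 2 := by omega

theorem C0 {z c5' s' x' : ℕ} (hz : z < 16) :
    SF m (a + z % 2) (b + z / 2 % 2) (r + 1) (p + z / 4 % 2) (q + z / 8 % 2) c5' c6 c7 c8 y
      s' x' ↔ a % 2 + 2 * (b % 2) + 4 * ((p + c6 + c7 + y) % 2) + 8 * ((q + c8) % 2) = z := by
  rw [SF_of_r (by omega), ← digits_eq hz, parity_aux, parity_aux]
  have h1 : (p + z / 4 % 2 + c6 + c7 + y) % 2 = 0 ↔ (p + c6 + c7 + y) % 2 = z / 4 % 2 := by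
    omega
  have h2 : (q + z / 8 % 2 + c8) % 2 = 0 ↔ (q + c8) % 2 = z / 8 % 2 := by
    omega
  rw [h1, h2]

theorem C4 {z c5' c6' c7' y' s' x' : ℕ} (hz : z < 16) (hc : c6' + c7' + y' + 1 = c6 + c7 + y) :
    SF m (a + tog4 z % 2) (b + tog4 z / 2 % 2) (r + 1) (p + tog4 z / 4 % 2)
      (q + tog4 z / 8 % 2) c5' c6' c7' c8 y' s' x' ↔
      a % 2 + 2 * (b % 2) + 4 * ((p + c6 + c7 + y) % 2) + 8 * ((q + c8) % 2) = z := by
  obtain ⟨t1, t2, t3, t4⟩ := tog4_digits hz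
  rw [SF_of_r (by omega), ← digits_eq hz, t1, t2, t3, t4, parity_aux, parity_aux]
  have h1 : (p + (1 - z / 4 % 2) + c6' + c7' + y') % 2 = 0 ↔
      (p + c6 + c7 + y) % 2 = z / 4 % 2 := by
    omega
  have h2 : (q + z / 8 % 2 + c8) % 2 = 0 ↔ (q + c8) % 2 = z / 8 % 2 := by
    omega
  rw [h1, h2]

theorem C8 {z c5' c8' s' x' : ℕ} (hz : z < 16) (hc : c8' + 1 = c8) :
    SF m (a + tog8 z % 2) (b + tog8 z / 2 % 2) (r + 1) (p + tog8 z / 4 % 2)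
      (q + tog8 z / 8 % 2) c5' c6 c7 c8' y s' x' ↔
      a % 2 + 2 * (b % 2) + 4 * ((p + c6 + c7 + y) % 2) + 8 * ((q + c8) % 2) = z := by
  obtain ⟨t1, t2, t3, t4⟩ := tog8_digits hz
  rw [SF_of_r (by omega), ← digits_eq hz, t1, t2, t3, t4, parity_aux, parity_aux]
  have h1 : (p + z / 4 % 2 + c6 + c7 + y) % 2 = 0 ↔ (p + c6 + c7 + y) % 2 = z / 4 % 2 := by
    omega
  have h2 : (q + (1 - z / 8 % 2) + c8') % 2 = 0 ↔ (q + c8) % 2 = z / 8 % 2 := by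
    omega
  rw [h1, h2]

theorem Z5 (h : SF m a b r p q c5 c6 c7 c8 y s x) (h5 : 1 ≤ c5) :
    a % 2 + 2 * (b % 2) + 4 * ((p + c6 + c7 + y) % 2) + 8 * ((q + c8) % 2) = 0 := by
  unfold SF Ded at h
  rcases h with ⟨_, h⟩ | ⟨hd, h | h | h⟩ <;> omega

theorem Z6 (h : SF m a b r p q c5 c6 c7 c8 y s x) (h6 : 1 ≤ c6) :
    a % 2 + 2 * (b % 2) + 4 * ((p + c6 + c7 + y) % 2) + 8 * ((q + c8) % 2) = 0 ∨
    a % 2 + 2 * (b % 2) + 4 * ((p + c6 + c7 + y) % 2) + 8 * ((q + c8) % 2) = 1 ∨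
    a % 2 + 2 * (b % 2) + 4 * ((p + c6 + c7 + y) % 2) + 8 * ((q + c8) % 2) = 5 := by
  unfold SF Ded at h
  rcases h with ⟨_, h⟩ | ⟨hd, h | h | h⟩ <;> omega

theorem Z7 (h : SF m a b r p q c5 c6 c7 c8 y s x) (h7 : 1 ≤ c7) :
    a % 2 + 2 * (b % 2) + 4 * ((p + c6 + c7 + y) % 2) + 8 * ((q + c8) % 2) = 0 := by
  unfold SF Ded at h
  rcases h with ⟨_, h⟩ | ⟨hd, h | h | h⟩ <;> omega

theorem Z8 (h : SF m a b r p q c5 c6 c7 c8 y s x) (h8 : 1 ≤ c8) :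
    a % 2 + 2 * (b % 2) + 4 * ((p + c6 + c7 + y) % 2) + 8 * ((q + c8) % 2) = 0 ∨
    a % 2 + 2 * (b % 2) + 4 * ((p + c6 + c7 + y) % 2) + 8 * ((q + c8) % 2) = 8 ∨
    a % 2 + 2 * (b % 2) + 4 * ((p + c6 + c7 + y) % 2) + 8 * ((q + c8) % 2) = 9 ∨
    a % 2 + 2 * (b % 2) + 4 * ((p + c6 + c7 + y) % 2) + 8 * ((q + c8) % 2) = 12 ∨
    a % 2 + 2 * (b % 2) + 4 * ((p + c6 + c7 + y) % 2) + 8 * ((q + c8) % 2) = 13 := by
  unfold SF Ded at h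
  rcases h with ⟨_, h⟩ | ⟨hd, h | h | h⟩ <;> omega

theorem Zy (h : SF m a b r p q c5 c6 c7 c8 y s x) (hy : 1 ≤ y) :
    a % 2 + 2 * (b % 2) + 4 * ((p + c6 + c7 + y) % 2) + 8 * ((q + c8) % 2) = 0 ∨
    a % 2 + 2 * (b % 2) + 4 * ((p + c6 + c7 + y) % 2) + 8 * ((q + c8) % 2) = 1 ∨
    a % 2 + 2 * (b % 2) + 4 * ((p + c6 + c7 + y) % 2) + 8 * ((q + c8) % 2) = 12 ∨
    a % 2 + 2 * (b % 2) + 4 * ((p + c6 + c7 + y) % 2) + 8 * ((q + c8) % 2) = 13 := by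
  unfold SF Ded at h
  rcases h with ⟨_, h⟩ | ⟨hd, h | h | h⟩ <;> omega

theorem Zx (h : SF m a b r p q c5 c6 c7 c8 y s x) (hx : 1 ≤ x) :
    a % 2 + 2 * (b % 2) + 4 * ((p + c6 + c7 + y) % 2) + 8 * ((q + c8) % 2) = 0 ∨
    a % 2 + 2 * (b % 2) + 4 * ((p + c6 + c7 + y) % 2) + 8 * ((q + c8) % 2) = 1 ∨
    a % 2 + 2 * (b % 2) + 4 * ((p + c6 + c7 + y) % 2) + 8 * ((q + c8) % 2) = 8 ∨
    a % 2 + 2 * (b % 2) + 4 * ((p + c6 + c7 + y) % 2) + 8 * ((q + c8) % 2) = 9 ∨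
    a % 2 + 2 * (b % 2) + 4 * ((p + c6 + c7 + y) % 2) + 8 * ((q + c8) % 2) = 12 ∨
    a % 2 + 2 * (b % 2) + 4 * ((p + c6 + c7 + y) % 2) + 8 * ((q + c8) % 2) = 13 := by
  unfold SF Ded at h
  rcases h with ⟨_, h⟩ | ⟨hd, h | h | h⟩ <;> omega

theorem exists_pos_of_SF (h : SF m a b r p q c5 c6 c7 c8 y s x) :
    1 ≤ a ∨ 1 ≤ b ∨ 1 ≤ r ∨ 1 ≤ p ∨ 1 ≤ q ∨ 1 ≤ c5 ∨ 1 ≤ c6 ∨ 1 ≤ c7 ∨ 1 ≤ c8 ∨ 1 ≤ y := by
  unfold SF Ded at h
  omega

end Pool.Agent.Lib.MP_bc0e65_co
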