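import Pool.Agent.Lib.MP_bc0e65_co.Num

/-!
Moves to positions with outcome `P`.
-/

namespace Pool.Agent.Lib.MP_bc0e65_co

variable {m a b r p q c5 c6 c7 c8 y s x : ℕ}

theorem SF_mk_ded (hD : Ded b r p q c5 c6 c7 c8 y) (h0 : a % 2 = 0) (h1 : b % 2 = 0)
    (h2 : (p + c6 + c7 + y) % 2 = 0) (h3 : (q + c8) % 2 = 0) :
    SF m a b r p q c5 c6 c7 c8 y s x := Or.inl ⟨hD, h0, h1, h2, h3⟩

theorem SF_mk_0 (hb : b + r + p + q = 0) (hc : c5 + c6 + c7 + c8 = 0) (hy : y = 0)
    (ha : a % 2 = 1) : SF m a b r p q c5 c6 c7 c8 y s x := by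
  refine Or.inr ⟨?_, Or.inl ⟨hc, hy, ha⟩⟩
  unfold Ded
  omega

theorem SF_mk_6 (hb : b + r + p + q = 0) (hc : c5 + c7 + c8 = 0) (hc6 : c6 = 1) (hy : y ≤ 1)
    (hyx : y = 1 ∨ x = 0) (ha : a % 2 = 1) : SF m a b r p q c5 c6 c7 c8 y s x := by
  refine Or.inr ⟨?_, Or.inr (Or.inl ⟨by omega, hc6, ha, hyx⟩)⟩
  unfold Ded
  omega

theorem SF_mk_8 (hb : b + r + p + q = 0) (hc : c5 + c6 + c7 = 0) (hc8 : c8 = 1) (hy : y ≤ 1)
    (hk : kap m a s x = 1) : SF m a b r p q c5 c6 c7 c8 y s x := by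
  refine Or.inr ⟨?_, Or.inr (Or.inr ⟨hc8, hk⟩)⟩
  unfold Ded
  omega

/-- The Grundy value. -/
def zv (a b p q c6 c7 c8 y : ℕ) : ℕ :=
  a % 2 + 2 * (b % 2) + 4 * ((p + c6 + c7 + y) % 2) + 8 * ((q + c8) % 2)

/-- The ways to move to a position with outcome `P`. -/
inductive PO (m a b r p q c5 c6 c7 c8 y s x : ℕ) : Prop
  | k5 : 1 ≤ c5 → zv a b p q c6 c7 c8 y ≠ 0 → PO m a b r p q c5 c6 c7 c8 y s x
  | k6 : 1 ≤ c6 → zv a b p q c6 c7 c8 y ≠ 0 → zv a b p q c6 c7 c8 y ≠ 1 →
      zv a b p q c6 c7 c8 y ≠ 5 → PO m a b r p q c5 c6 c7 c8 y s x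
  | k7 : 1 ≤ c7 → zv a b p q c6 c7 c8 y ≠ 0 → PO m a b r p q c5 c6 c7 c8 y s x
  | k8 : 1 ≤ c8 → zv a b p q c6 c7 c8 y ≠ 0 → zv a b p q c6 c7 c8 y ≠ 8 →
      zv a b p q c6 c7 c8 y ≠ 9 → zv a b p q c6 c7 c8 y ≠ 12 → zv a b p q c6 c7 c8 y ≠ 13 →
      PO m a b r p q c5 c6 c7 c8 y s x
  | ky : 1 ≤ y → zv a b p q c6 c7 c8 y ≠ 0 → zv a b p q c6 c7 c8 y ≠ 1 →
      zv a b p q c6 c7 c8 y ≠ 12 → zv a b p q c6 c7 c8 y ≠ 13 →
      PO m a b r p q c5 c6 c7 c8 y s x
  | kx : 1 ≤ x → zv a b p q c6 c7 c8 y ≠ 0 → zv a b p q c6 c7 c8 y ≠ 1 →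
      zv a b p q c6 c7 c8 y ≠ 8 → zv a b p q c6 c7 c8 y ≠ 9 → zv a b p q c6 c7 c8 y ≠ 12 →
      zv a b p q c6 c7 c8 y ≠ 13 → PO m a b r p q c5 c6 c7 c8 y s x
  | ka : 1 ≤ a → SF m (a - 1) b r p q c5 c6 c7 c8 y s x → PO m a b r p q c5 c6 c7 c8 y s x
  | kb0 : 1 ≤ b → SF m a (b - 1) r p q c5 c6 c7 c8 y s x → PO m a b r p q c5 c6 c7 c8 y s x
  | kba : 1 ≤ b → SF m (a + 1) (b - 1) r p q c5 c6 c7 c8 y s x →
      PO m a b r p q c5 c6 c7 c8 y s x
  | kp : 1 ≤ p → 4 ≤ zv a b p q c6 c7 c8 y → zv a b p q c6 c7 c8 y < 8 →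
      PO m a b r p q c5 c6 c7 c8 y s x
  | kq : 1 ≤ q → 8 ≤ zv a b p q c6 c7 c8 y → PO m a b r p q c5 c6 c7 c8 y s x
  | k5a : 1 ≤ c5 → SF m (a + 1) b r p q (c5 - 1) c6 c7 c8 y s x →
      PO m a b r p q c5 c6 c7 c8 y s x
  | k6a : 1 ≤ c6 → SF m (a + 1) b r p q (c5 + 1) (c6 - 1) c7 c8 y s x →
      PO m a b r p q c5 c6 c7 c8 y s x
  | k7a : 1 ≤ c7 → SF m (a + 1) b r p q c5 (c6 + 1) (c7 - 1) c8 y s x →
      PO m a b r p q c5 c6 c7 c8 y s x
  | k8a : 1 ≤ c8 → SF m a b r p q (c5 + 1) c6 c7 (c8 - 1) y s x →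
      PO m a b r p q c5 c6 c7 c8 y s x
  | k8b : 1 ≤ c8 → SF m (a + 1) b r p q (c5 + 1) c6 c7 (c8 - 1) y s x →
      PO m a b r p q c5 c6 c7 c8 y s x
  | k8c : 1 ≤ c8 → SF m a b r p q c5 c6 (c7 + 1) (c8 - 1) y s x →
      PO m a b r p q c5 c6 c7 c8 y s x
  | k8d : 1 ≤ c8 → SF m (a + 1) b r p q c5 c6 (c7 + 1) (c8 - 1) y s x →
      PO m a b r p q c5 c6 c7 c8 y s x
  | ky1 : y = 1 → s = 1 → SF m (a + 1) b r p q c5 c6 c7 c8 0 0 x →
      PO m a b r p q c5 c6 c7 c8 y s x
  | kyi : y = 1 → 2 ≤ s → SF m (a + 1) b r p q c5 c6 c7 c8 1 (s - 1) x →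
      PO m a b r p q c5 c6 c7 c8 y s x
  | kxa : 1 ≤ x → SF m (a + 1) b r p q c5 c6 c7 c8 y s (x - 1) →
      PO m a b r p q c5 c6 c7 c8 y s x
  | kxy : 1 ≤ x → SF m a b r p q c5 c6 c7 c8 (y + 1) (s + m) (x - 1) →
      PO m a b r p q c5 c6 c7 c8 y s x

open PO

theorem N_exists_ded (hD : Ded b r p q c5 c6 c7 c8 y)
    (h : ¬ SF m a b r p q c5 c6 c7 c8 y s x) : PO m a b r p q c5 c6 c7 c8 y s x := by
  -- dead positions
  have hz : zv a b p q c6 c7 c8 y ≠ 0 := by
    intro h0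
    apply h
    unfold zv at h0
    exact SF_mk_ded hD (by omega) (by omega) (by omega) (by omega)
  rcases Nat.eq_zero_or_pos c5 with h5 | h5
  swap
  · exact k5 h5 hz
  rcases Nat.eq_zero_or_pos c7 with h7 | h7
  swap
  · exact k7 h7 hz
  subst h5 h7
  by_cases h68 : 1 ≤ c6 ∧ 1 ≤ c8
  · by_cases h15 : zv a b p q c6 0 c8 y = 1 ∨ zv a b p q c6 0 c8 y = 5
    · exact k8 h68.2 (by omega) (by omega) (by omega) (by omega) (by omega)
    · exact k6 h68.1 (by omega) (by omega) (by omega)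
  by_cases hz1 : zv a b p q c6 0 c8 y = 1
  · unfold zv at hz1
    exact ka (by omega) (SF_mk_ded hD (by omega) (by omega) (by omega) (by omega))
  have hzz : zv a b p q c6 0 c8 y = a % 2 + 2 * (b % 2) + 4 * ((p + c6 + 0 + y) % 2) +
    8 * ((q + c8) % 2) := rfl
  by_cases hb1 : b % 2 = 1
  · -- the binary digit 2 is present
    rcases Nat.eq_zero_or_pos c6 with h6 | h6
    swap
    · exact k6 h6 (by omega) (by omega) (by omega)
    rcases Nat.eq_zero_or_pos c8 with h8 | h8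
    swap
    · exact k8 h8 (by omega) (by omega) (by omega) (by omega) (by omega)
    rcases Nat.eq_zero_or_pos y with hy | hy
    swap
    · exact ky hy (by omega) (by omega) (by omega) (by omega)
    by_cases hq1 : q % 2 = 1
    · exact kq (by omega) (by omega)
    by_cases hp1 : p % 2 = 1
    · exact kp (by omega) (by omega) (by omega)
    subst h6 h8 hy
    by_cases hD' : Ded (b - 1) r p q 0 0 0 0 0
    · by_cases ha1 : a % 2 = 1
      · exact kba (by omega) (SF_mk_ded hD' (by omega) (by omega) (by omega) (by omega))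
      · exact kb0 (by omega) (SF_mk_ded hD' (by omega) (by omega) (by omega) (by omega))
    · unfold Ded at hD'
      by_cases ha1 : a % 2 = 1
      · exact kb0 (by omega) (SF_mk_0 (by omega) (by omega) (by omega) (by omega))
      · exact kba (by omega) (SF_mk_0 (by omega) (by omega) (by omega) (by omega))
  · rcases Nat.eq_zero_or_pos ((q + c8) % 2) with hq1 | hq1
    · -- values 4 and 5
      rcases Nat.eq_zero_or_pos p with hp | hp
      swap
      · exact kp hp (by omega) (by omega)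
      rcases Nat.eq_zero_or_pos y with hy | hy
      swap
      · exact ky hy (by omega) (by omega) (by omega) (by omega)
      subst hp hy
      have h6 : c6 % 2 = 1 := by omega
      by_cases hz5 : zv a b 0 q c6 0 c8 0 = 5
      · refine k6a (by omega) (SF_mk_ded ?_ (by omega) (by omega) (by omega) (by omega))
        unfold Ded at hD ⊢
        omega
      · exact k6 (by omega) (by omega) (by omega) (by omega)
    · -- values 8, 9, 12 and 13
      rcases Nat.eq_zero_or_pos q with hq | hq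
      swap
      · exact kq hq (by omega)
      have h8 : c8 % 2 = 1 := by omega
      have h6 : c6 = 0 := by omega
      subst hq h6
      by_cases ha1 : a % 2 = 1
      · by_cases ht : (p + 0 + 0 + y) % 2 = 1
        · refine k8d (by omega) (SF_mk_ded ?_ (by omega) (by omega) (by omega) (by omega))
          unfold Ded at hD ⊢
          omega
        · refine k8b (by omega) (SF_mk_ded ?_ (by omega) (by omega) (by omega) (by omega))
          unfold Ded at hD ⊢
          omega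
      · by_cases ht : (p + 0 + 0 + y) % 2 = 1
        · refine k8c (by omega) (SF_mk_ded ?_ (by omega) (by omega) (by omega) (by omega))
          unfold Ded at hD ⊢
          omega
        · refine k8a (by omega) (SF_mk_ded ?_ (by omega) (by omega) (by omega) (by omega))
          unfold Ded at hD ⊢
          omega

theorem N_exists_alive (hm : 1 ≤ m) (hs : y ≤ 1 → s ≤ m) (hs0 : y = 0 → s = 0)
    (hs1 : y = 1 → 1 ≤ s) (hD : ¬ Ded b r p q c5 c6 c7 c8 y)
    (h : ¬ SF m a b r p q c5 c6 c7 c8 y s x)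
    (hne : 1 ≤ a ∨ 1 ≤ b ∨ 1 ≤ r ∨ 1 ≤ p ∨ 1 ≤ q ∨ 1 ≤ c5 ∨ 1 ≤ c6 ∨ 1 ≤ c7 ∨ 1 ≤ c8 ∨ 1 ≤ y ∨
      1 ≤ x) : PO m a b r p q c5 c6 c7 c8 y s x := by
  -- alive positions
  have hD' := hD
  unfold Ded at hD'
  push Not at hD'
  obtain ⟨hb, hyy, hc⟩ := hD'
  have hy : y ≤ 1 := by omega
  have hb0 : b = 0 := by omega
  have hr0 : r = 0 := by omega
  have hp0 : p = 0 := by omega
  have hq0 : q = 0 := by omega
  subst hb0 hr0 hp0 hq0
  have hzz : zv a 0 0 0 c6 c7 c8 y = a % 2 + 2 * (0 % 2) + 4 * ((0 + c6 + c7 + y) % 2) +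
    8 * ((0 + c8) % 2) := rfl
  rcases hc with ⟨h5, h6, h78⟩ | ⟨h56, h78⟩
  · have h7 : c7 = 0 := by omega
    have h8 : c8 = 0 := by omega
    subst h7 h8
    rcases Nat.eq_zero_or_pos c5 with h5' | h5'
    · rcases Nat.eq_zero_or_pos c6 with h6' | h6'
      · -- no generator among 5, 6, 7, 8
        subst h5' h6'
        rcases Nat.eq_zero_or_pos y with hy' | hy'
        · have ha : a % 2 = 0 := by
            by_contra ha
            exact h (SF_mk_0 (by omega) (by omega) hy' (by omega))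
          rcases Nat.eq_zero_or_pos x with hx | hx
          · have ha1 : 1 ≤ a := by omega
            exact ka ha1 (SF_mk_0 (by omega) (by omega) hy' (by omega))
          · exact kxa hx (SF_mk_0 (by omega) (by omega) hy' (by omega))
        · exact ky hy' (by omega) (by omega) (by omega) (by omega)
      · -- the generator 6
        have h61 : c6 = 1 := by omega
        subst h5' h61
        rcases Nat.eq_zero_or_pos y with hy' | hy'
        · by_cases ha : a % 2 = 1
          · have hx : 1 ≤ x := by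
              by_contra hx
              exact h (SF_mk_6 (by omega) (by omega) rfl hy (Or.inr (by omega)) ha)
            exact kx hx (by omega) (by omega) (by omega) (by omega) (by omega) (by omega)
          · exact k6 (by omega) (by omega) (by omega) (by omega)
        · have hy1 : y = 1 := by omega
          have ha : a % 2 = 0 := by
            by_contra ha
            exact h (SF_mk_6 (by omega) (by omega) rfl hy (Or.inl hy1) (by omega))
          rcases Nat.eq_zero_or_pos x with hx | hx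
          · have := hs1 hy1
            by_cases hs' : s = 1
            · exact ky1 hy1 hs' (SF_mk_6 (by omega) (by omega) rfl (by omega) (Or.inr hx)
                (by omega))
            · exact kyi hy1 (by omega) (SF_mk_6 (by omega) (by omega) rfl (by omega)
                (Or.inl rfl) (by omega))
          · exact kxa hx (SF_mk_6 (by omega) (by omega) rfl hy (Or.inl hy1) (by omega))
    · -- the generator 5
      have h51 : c5 = 1 := by omega
      subst h51
      by_cases hz : zv a 0 0 0 c6 0 0 y = 0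
      · rcases Nat.eq_zero_or_pos c6 with h6' | h6'
        · exact k5a (by omega) (SF_mk_0 (by omega) (by omega) (by omega) (by omega))
        · exact k5a (by omega) (SF_mk_6 (by omega) (by omega) (by omega) hy
            (Or.inl (by omega)) (by omega))
      · exact k5 (by omega) hz
  · have h5 : c5 = 0 := by omega
    have h6 : c6 = 0 := by omega
    subst h5 h6
    rcases Nat.eq_zero_or_pos c7 with h7 | h7
    · -- the generator 8
      subst h7
      have h8 : c8 = 1 := by omega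
      subst h8
      have hk : kap m a s x ≠ 1 := fun hk => h (SF_mk_8 (by omega) (by omega) rfl hy hk)
      have hs'' : s ≤ m := hs hy
      rcases KK_exists m a s x y hm hy hs'' hs0 hs1 hk with ⟨h1, h2⟩ | ⟨h1, h2⟩ | ⟨h1, h2⟩ |
        ⟨h1, h2, h3⟩
      · exact ka h1 (SF_mk_8 (by omega) (by omega) rfl hy h2)
      · have := hs1 h1
        by_cases hs' : s = 1
        · subst hs'
          exact ky1 h1 rfl (SF_mk_8 (by omega) (by omega) rfl (by omega) h2)
        · exact kyi h1 (by omega) (SF_mk_8 (by omega) (by omega) rfl (by omega) h2)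
      · exact kxa h1 (SF_mk_8 (by omega) (by omega) rfl hy h2)
      · have hs2 := hs0 h1
        subst hs2
        refine kxy h2 (SF_mk_8 (by omega) (by omega) rfl (by omega) ?_)
        rw [Nat.zero_add]
        exact h3
    · -- the generator 7
      have h71 : c7 = 1 := by omega
      have h8 : c8 = 0 := by omega
      subst h71 h8
      by_cases hz : zv a 0 0 0 0 1 0 y = 0
      · exact k7a (by omega) (SF_mk_6 (by omega) (by omega) (by omega) hy
            (Or.inl (by omega)) (by omega))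
      · exact k7 (by omega) hz

theorem N_exists (hm : 1 ≤ m) (hs : y ≤ 1 → s ≤ m) (hs0 : y = 0 → s = 0)
    (hs1 : y = 1 → 1 ≤ s) (h : ¬ SF m a b r p q c5 c6 c7 c8 y s x)
    (hne : 1 ≤ a ∨ 1 ≤ b ∨ 1 ≤ r ∨ 1 ≤ p ∨ 1 ≤ q ∨ 1 ≤ c5 ∨ 1 ≤ c6 ∨ 1 ≤ c7 ∨ 1 ≤ c8 ∨ 1 ≤ y ∨
      1 ≤ x) : PO m a b r p q c5 c6 c7 c8 y s x := by
  by_cases hD : Ded b r p q c5 c6 c7 c8 y
  · exact N_exists_ded hD h
  · exact N_exists_alive hm hs hs0 hs1 hD h hne

end Pool.Agent.Lib.MP_bc0e65_co
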