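import Pool.Agent.Lib.MP_bc0e65_co.Num2

/-!
The function `Sm` is the outcome function of the family of rules.
-/

namespace Pool.Agent.Lib.MP_bc0e65_co

theorem one_apply (j i : ℕ) : one j i = if i = j then 1 else 0 := rfl
theorem wY_apply (m i : ℕ) : wY m i = if 9 ≤ i ∧ i < 9 + m then 1 else 0 := rfl
theorem wS_apply (m i : ℕ) : wS m i = if 9 ≤ i ∧ i < 9 + m then i - 8 else 0 := rfl

theorem lit0 (m : ℕ) : (0 = 9 + m) = False := by
  rw [eq_iff_iff, iff_false]
  omega
theorem lit1 (m : ℕ) : (1 = 9 + m) = False := by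
  rw [eq_iff_iff, iff_false]
  omega
theorem lit2 (m : ℕ) : (2 = 9 + m) = False := by
  rw [eq_iff_iff, iff_false]
  omega
theorem lit3 (m : ℕ) : (3 = 9 + m) = False := by
  rw [eq_iff_iff, iff_false]
  omega
theorem lit4 (m : ℕ) : (4 = 9 + m) = False := by
  rw [eq_iff_iff, iff_false]
  omega
theorem lit5 (m : ℕ) : (5 = 9 + m) = False := by
  rw [eq_iff_iff, iff_false]
  omega
theorem lit6 (m : ℕ) : (6 = 9 + m) = False := by
  rw [eq_iff_iff, iff_false]
  omega
theorem lit7 (m : ℕ) : (7 = 9 + m) = False := by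
  rw [eq_iff_iff, iff_false]
  omega
theorem lit8 (m : ℕ) : (8 = 9 + m) = False := by
  rw [eq_iff_iff, iff_false]
  omega

theorem lit0' (m : ℕ) : (9 + m = 0) = False := by
  rw [eq_iff_iff, iff_false]
  omega
theorem lit1' (m : ℕ) : (9 + m = 1) = False := by
  rw [eq_iff_iff, iff_false]
  omega
theorem lit2' (m : ℕ) : (9 + m = 2) = False := by
  rw [eq_iff_iff, iff_false]
  omega
theorem lit3' (m : ℕ) : (9 + m = 3) = False := by
  rw [eq_iff_iff, iff_false]
  omega
theorem lit4' (m : ℕ) : (9 + m = 4) = False := by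
  rw [eq_iff_iff, iff_false]
  omega
theorem lit5' (m : ℕ) : (9 + m = 5) = False := by
  rw [eq_iff_iff, iff_false]
  omega
theorem lit6' (m : ℕ) : (9 + m = 6) = False := by
  rw [eq_iff_iff, iff_false]
  omega
theorem lit7' (m : ℕ) : (9 + m = 7) = False := by
  rw [eq_iff_iff, iff_false]
  omega
theorem lit8' (m : ℕ) : (9 + m = 8) = False := by
  rw [eq_iff_iff, iff_false]
  omega

theorem sum_dopt (f : ℕ → ℕ) (u : ℕ) : ((dopt u).map f).sum =
    f 2 + (u % 2 * f 0 + u / 2 % 2 * f 1 + u / 4 % 2 * f 3 + u / 8 % 2 * f 4) := by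
  have h0 : u % 2 = 0 ∨ u % 2 = 1 := by omega
  have h1 : u / 2 % 2 = 0 ∨ u / 2 % 2 = 1 := by omega
  have h2 : u / 4 % 2 = 0 ∨ u / 4 % 2 = 1 := by omega
  have h3 : u / 8 % 2 = 0 ∨ u / 8 % 2 = 1 := by omega
  unfold dopt
  rcases h0 with h0 | h0 <;> rcases h1 with h1 | h1 <;> rcases h2 with h2 | h2 <;>
    rcases h3 with h3 | h3 <;> simp [h0, h1, h2, h3] <;> ring

variable {m : ℕ} {v : Multiset ℕ}

theorem wS_le (m : ℕ) (v : Multiset ℕ) : ev (wS m) v ≤ m * ev (wY m) v := by
  refine ev_mono _ _ _ _ (fun i => ?_)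
  unfold wS wY
  split_ifs <;> omega

theorem wY_le (m : ℕ) (v : Multiset ℕ) : ev (wY m) v ≤ 1 * ev (wS m) v := by
  refine ev_mono _ _ _ _ (fun i => ?_)
  unfold wS wY
  split_ifs <;> omega

theorem hs_le (m : ℕ) (v : Multiset ℕ) : ev (wY m) v ≤ 1 → ev (wS m) v ≤ m := by
  intro h
  have h1 := wS_le m v
  have h2 : m * ev (wY m) v ≤ m * 1 := Nat.mul_le_mul_left m h
  omega

theorem hs_zero (m : ℕ) (v : Multiset ℕ) : ev (wY m) v = 0 → ev (wS m) v = 0 := by
  intro h
  have h1 := wS_le m v
  rw [h, Nat.mul_zero] at h1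
  omega

theorem hs_one (m : ℕ) (v : Multiset ℕ) : ev (wY m) v = 1 → 1 ≤ ev (wS m) v := by
  intro h
  have h1 := wY_le m v
  omega

/-- No move from a position with outcome `P` leads to a position with outcome `P`. -/
theorem P_move (hm : 1 ≤ m) (h : Sm m v) {i : ℕ} (hi : i ∈ v) {w : List ℕ} (hw : w ∈ fam m i) :
    ¬ SA m v i w := by
  match i, hi, hw with
  | 0, hi, hw =>
    have h1 := one_of_mem hi
    simp only [fam, List.mem_singleton] at hw
    subst hw
    have := P_a h h1
    simpa [SA, one_apply, wY_apply, wS_apply, lit0] using this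
  | 1, hi, hw =>
    have h1 := one_of_mem hi
    simp only [fam, List.mem_cons, List.not_mem_nil, or_false] at hw
    rcases hw with rfl | rfl
    · have := P_b0 h h1
      simpa [SA, one_apply, wY_apply, wS_apply, lit1] using this
    · have := P_ba h h1
      simpa [SA, one_apply, wY_apply, wS_apply, lit0, lit1] using this
  | 2, hi, hw =>
    have h1 := one_of_mem hi
    simp only [fam, List.mem_singleton] at hw
    subst hw
    have := P_r h h1
    simpa [SA, one_apply, wY_apply, wS_apply, lit1, lit2] using this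
  | 3, hi, hw =>
    have h1 := one_of_mem hi
    simp only [fam, List.mem_map, List.mem_range] at hw
    obtain ⟨u, hu, rfl⟩ := hw
    have := P_p h h1 hu
    simpa [SA, one_apply, wY_apply, wS_apply, sum_dopt, lit0, lit1, lit2, lit3, lit4] using this
  | 4, hi, hw =>
    have h1 := one_of_mem hi
    simp only [fam, List.mem_map, List.mem_range] at hw
    obtain ⟨u, hu, rfl⟩ := hw
    have := P_q h h1 hu
    simpa [SA, one_apply, wY_apply, wS_apply, sum_dopt, lit0, lit1, lit2, lit3, lit4] using this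
  | 5, hi, hw =>
    have h1 := one_of_mem hi
    simp only [fam, List.mem_cons] at hw
    rcases hw with rfl | hw
    · have := P_5 h h1
      simpa [SA, one_apply, wY_apply, wS_apply, lit0, lit5] using this
    · obtain ⟨z, hz, hz0, hzU, rfl⟩ := mem_cover.1 hw
      intro hcon
      simp only [SA, id_eq, one_apply, wY_apply, wS_apply, sum_dopt] at hcon
      simp [lit0, lit1, lit2, lit3, lit4, lit5] at hcon
      rw [C0 hz] at hcon
      have := Z5 h h1
      omega
  | 6, hi, hw =>
    have h1 := one_of_mem hi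
    simp only [fam, List.mem_cons] at hw
    rcases hw with rfl | hw
    · have := P_6 h h1
      simpa [SA, one_apply, wY_apply, wS_apply, lit0, lit5, lit6] using this
    · obtain ⟨z, hz, hz0, hzU, rfl⟩ := mem_cover.1 hw
      simp at hzU
      intro hcon
      simp only [SA, one_apply, wY_apply, wS_apply, sum_dopt] at hcon
      simp [lit0, lit1, lit2, lit3, lit4, lit6] at hcon
      rw [C4 (c6 := ev (one 6) v) (c7 := ev (one 7) v) (y := ev (wY m) v) hz (by omega)] at hcon
      have := Z6 h h1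
      omega
  | 7, hi, hw =>
    have h1 := one_of_mem hi
    simp only [fam, List.mem_cons] at hw
    rcases hw with rfl | hw
    · have := P_7 h h1
      simpa [SA, one_apply, wY_apply, wS_apply, lit0, lit6, lit7] using this
    · obtain ⟨z, hz, hz0, hzU, rfl⟩ := mem_cover.1 hw
      intro hcon
      simp only [SA, one_apply, wY_apply, wS_apply, sum_dopt] at hcon
      simp [lit0, lit1, lit2, lit3, lit4, lit7] at hcon
      rw [C4 (c6 := ev (one 6) v) (c7 := ev (one 7) v) (y := ev (wY m) v) hz (by omega)] at hcon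
      have := Z7 h h1
      omega
  | 8, hi, hw =>
    have h1 := one_of_mem hi
    simp only [fam, List.mem_cons] at hw
    rcases hw with rfl | rfl | rfl | rfl | hw
    · have := P_8a h h1
      simpa [SA, one_apply, wY_apply, wS_apply, lit5, lit8] using this
    · have := P_8b h h1
      simpa [SA, one_apply, wY_apply, wS_apply, lit0, lit5, lit8] using this
    · have := P_8c h h1
      simpa [SA, one_apply, wY_apply, wS_apply, lit7, lit8] using this
    · have := P_8d h h1
      simpa [SA, one_apply, wY_apply, wS_apply, lit0, lit7, lit8] using this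
    · obtain ⟨z, hz, hz0, hzU, rfl⟩ := mem_cover.1 hw
      simp at hzU
      intro hcon
      simp only [SA, one_apply, wY_apply, wS_apply, sum_dopt] at hcon
      simp [lit0, lit1, lit2, lit3, lit4, lit8] at hcon
      rw [C8 (c8 := ev (one 8) v) hz (by omega)] at hcon
      have := Z8 h h1
      omega
  | n + 9, hi, hw =>
    simp only [fam] at hw
    split_ifs at hw with hn hn0 hnm
    · -- the generator `9`
      subst hn0
      have hy1 : 1 ≤ ev (wY m) v := by
        have := le_ev_of_mem (wY m) hi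
        rw [wY_apply, if_pos (by omega)] at this
        exact this
      have hs1 : 1 ≤ ev (wS m) v := by
        have := le_ev_of_mem (wS m) hi
        rw [wS_apply, if_pos (by omega)] at this
        omega
      have e1 : ¬ (0 + 9 = 9 + m) := by omega
      have e2 : 9 ≤ 0 + 9 ∧ 0 + 9 < 9 + m := by omega
      simp only [List.mem_cons] at hw
      rcases hw with rfl | hw
      · have := P_y1 h hm hy1 hs1 (hs_le m v)
        simp only [SA, one_apply, wY_apply, wS_apply, if_neg e1, if_pos e2]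
        simpa [one_apply, wY_apply, wS_apply, lit0] using this
      · obtain ⟨z, hz, hz0, hzU, rfl⟩ := mem_cover.1 hw
        simp at hzU
        intro hcon
        simp only [SA, one_apply, wY_apply, wS_apply, sum_dopt, if_neg e1, if_pos e2] at hcon
        simp [lit0, lit1, lit2, lit3, lit4] at hcon
        rw [C4 (c6 := ev (one 6) v) (c7 := ev (one 7) v) (y := ev (wY m) v) hz (by omega)] at hcon
        have := Zy h hy1
        omega
    · -- the generators `10, …, 8 + m`
      have hy1 : 1 ≤ ev (wY m) v := by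
        have := le_ev_of_mem (wY m) hi
        rw [wY_apply, if_pos (by omega)] at this
        exact this
      have hs1 : n + 1 ≤ ev (wS m) v := by
        have := le_ev_of_mem (wS m) hi
        rw [wS_apply, if_pos (by omega)] at this
        omega
      have e1 : ¬ (n + 9 = 9 + m) := by omega
      have e2 : 9 ≤ n + 9 ∧ n + 9 < 9 + m := by omega
      simp only [List.mem_cons] at hw
      rcases hw with rfl | hw
      · have := P_yi h hm hy1 (by omega) (hs_le m v)
        have e3 : ev (wY m) v - 1 + 1 = ev (wY m) v := by omega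
        have e4 : ev (wS m) v - (n + 9 - 8) + (n + 8 - 8) = ev (wS m) v - 1 := by omega
        have e5 : 9 ≤ n + 8 ∧ n + 8 < 9 + m := by omega
        have e6 : ¬ (n + 8 = 9 + m) := by omega
        have f0 : ¬ (n + 8 = 0) := by omega
        have f1 : ¬ (n + 8 = 1) := by omega
        have f2 : ¬ (n + 8 = 2) := by omega
        have f3 : ¬ (n + 8 = 3) := by omega
        have f4 : ¬ (n + 8 = 4) := by omega
        have f5 : ¬ (n + 8 = 5) := by omega
        have f6 : ¬ (n + 8 = 6) := by omega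
        have f7 : ¬ (n + 8 = 7) := by omega
        have f8 : ¬ (n + 8 = 8) := by omega
        have g9 : ¬ (9 ≤ 0 ∧ 0 < 9 + m) := by omega
        simp only [SA, List.map_cons, List.map_nil, List.sum_cons, List.sum_nil, one_apply,
          wY_apply, wS_apply, if_neg e1, if_pos e2, if_pos e5, if_neg e6, if_neg f0, if_neg f1,
          if_neg f2, if_neg f3, if_neg f4, if_neg f5, if_neg f6, if_neg f7, if_neg f8, if_neg g9,
          Nat.zero_add, Nat.add_zero, e3, e4]
        simpa [lit0] using this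
      · obtain ⟨z, hz, hz0, hzU, rfl⟩ := mem_cover.1 hw
        simp at hzU
        intro hcon
        simp only [SA, one_apply, wY_apply, wS_apply, sum_dopt, if_neg e1, if_pos e2] at hcon
        simp [lit0, lit1, lit2, lit3, lit4] at hcon
        rw [C4 (c6 := ev (one 6) v) (c7 := ev (one 7) v) (y := ev (wY m) v) hz (by omega)] at hcon
        have := Zy h hy1
        omega
    · -- the generator `9 + m`
      rw [hnm, Nat.add_comm m 9] at hi
      rw [hnm] at hw
      have hx1 := one_of_mem hi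
      have e2 : ¬ (9 ≤ 9 + m ∧ 9 + m < 9 + m) := by omega
      rw [hnm, Nat.add_comm m 9]
      simp only [List.mem_cons] at hw
      rcases hw with rfl | rfl | hw
      · have := P_xa h hm hx1 (hs_le m v)
        simp only [SA, one_apply, wY_apply, wS_apply, if_neg e2]
        simpa [one_apply, wY_apply, wS_apply, lit0, lit0', lit1', lit2', lit3', lit4', lit5', lit6', lit7', lit8']
          using this
      · have := P_xy h hm hx1 (hs_zero m v)
        have e5 : 9 ≤ m + 8 ∧ m + 8 < 9 + m := by omega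
        have e6 : ¬ (m + 8 = 9 + m) := by omega
        have f0 : ¬ (m + 8 = 0) := by omega
        have f1 : ¬ (m + 8 = 1) := by omega
        have f2 : ¬ (m + 8 = 2) := by omega
        have f3 : ¬ (m + 8 = 3) := by omega
        have f4 : ¬ (m + 8 = 4) := by omega
        have f5 : ¬ (m + 8 = 5) := by omega
        have f6 : ¬ (m + 8 = 6) := by omega
        have f7 : ¬ (m + 8 = 7) := by omega
        have f8 : ¬ (m + 8 = 8) := by omega
        simp only [SA, List.map_cons, List.map_nil, List.sum_cons, List.sum_nil, one_apply,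
          wY_apply, wS_apply, if_neg e2, if_pos e5, if_neg e6, if_neg f0, if_neg f1,
          if_neg f2, if_neg f3, if_neg f4, if_neg f5, if_neg f6, if_neg f7, if_neg f8,
          Nat.add_zero, Nat.sub_zero, Nat.add_sub_cancel]
        simpa [lit0', lit1', lit2', lit3', lit4', lit5', lit6', lit7', lit8'] using this
      · obtain ⟨z, hz, hz0, hzU, rfl⟩ := mem_cover.1 hw
        simp at hzU
        intro hcon
        simp only [SA, id_eq, one_apply, wY_apply, wS_apply, sum_dopt, if_neg e2] at hcon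
        simp [lit0, lit1, lit2, lit3, lit4, lit1', lit2', lit3', lit4', lit5', lit6', lit7',
          lit8'] at hcon
        rw [C0 hz] at hcon
        have := Zx h hx1
        omega
    · simp at hw


/-! ### Moves to positions with outcome `P` -/

theorem zv_lt (a b p q c6 c7 c8 y : ℕ) : zv a b p q c6 c7 c8 y < 16 := by
  unfold zv
  omega

theorem exists_y (h : 1 ≤ ev (wY m) v) : ∃ n, n < m ∧ n + 9 ∈ v := by
  obtain ⟨i, hi, h1⟩ := exists_of_ev_pos _ h
  rw [wY_apply] at h1
  split_ifs at h1 with h2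
  · exact ⟨i - 9, by omega, by rwa [Nat.sub_add_cancel h2.1]⟩
  · omega

theorem exists_y_one (h : ev (wY m) v = 1) :
    ∃ n, n < m ∧ n + 9 ∈ v ∧ ev (wS m) v = n + 1 := by
  obtain ⟨n, hn, hi⟩ := exists_y (m := m) (v := v) (by omega)
  refine ⟨n, hn, hi, ?_⟩
  have h1 := ev_eq_of_mem (wY m) hi
  have h2 := ev_eq_of_mem (wS m) hi
  rw [wY_apply, if_pos (by omega)] at h1
  rw [wS_apply, if_pos (by omega)] at h2
  have h3 := hs_zero m (v.erase (n + 9)) (by omega)
  omega

/-- There is a move to a position with outcome `P`. -/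
def Good (m : ℕ) (v : Multiset ℕ) : Prop := ∃ i ∈ v, ∃ w ∈ fam m i, SA m v i w

theorem fam_y {n : ℕ} (hn : n < m) :
    fam m (n + 9) = (if n = 0 then [0] else [0, n + 8]) :: cover tog4 [1, 12, 13] := by
  simp only [fam]
  rw [if_pos hn]

theorem fam_x : fam m (9 + m) = [0] :: [m + 8] :: cover id [1, 8, 9, 12, 13] := by
  rw [Nat.add_comm]
  simp only [fam]
  rw [if_neg (lt_irrefl m), if_pos trivial]

theorem good_of_PO (hm : 1 ≤ m) (h : PO m (ev (one 0) v) (ev (one 1) v) (ev (one 2) v) (ev (one 3) v)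
    (ev (one 4) v) (ev (one 5) v) (ev (one 6) v) (ev (one 7) v) (ev (one 8) v) (ev (wY m) v)
    (ev (wS m) v) (ev (one (9 + m)) v)) : Good m v := by
  have hlt := zv_lt (ev (one 0) v) (ev (one 1) v) (ev (one 3) v) (ev (one 4) v) (ev (one 6) v)
    (ev (one 7) v) (ev (one 8) v) (ev (wY m) v)
  have e2 : ¬ (9 ≤ 9 + m ∧ 9 + m < 9 + m) := by omega
  cases h with
  | k5 h1 h2 =>
    refine ⟨5, mem_of_one h1, _, List.mem_cons_of_mem _ (mem_cover.2 ⟨_, hlt, h2, by simp, rfl⟩),
      ?_⟩
    simp only [SA, id_eq, one_apply, wY_apply, wS_apply, sum_dopt]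
    simp [lit0, lit1, lit2, lit3, lit4, lit5]
    rw [C0 hlt]
    rfl
  | k6 h1 h2 h3 h4 =>
    refine ⟨6, mem_of_one h1, _, List.mem_cons_of_mem _ (mem_cover.2 ⟨_, hlt, h2, by
      simp only [List.mem_cons, List.not_mem_nil, or_false]; omega, rfl⟩), ?_⟩
    simp only [SA, one_apply, wY_apply, wS_apply, sum_dopt]
    simp [lit0, lit1, lit2, lit3, lit4, lit6]
    rw [C4 (c6 := ev (one 6) v) (c7 := ev (one 7) v) (y := ev (wY m) v) hlt (by omega)]
    rfl
  | k7 h1 h2 =>
    refine ⟨7, mem_of_one h1, _, List.mem_cons_of_mem _ (mem_cover.2 ⟨_, hlt, h2, by simp, rfl⟩),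
      ?_⟩
    simp only [SA, one_apply, wY_apply, wS_apply, sum_dopt]
    simp [lit0, lit1, lit2, lit3, lit4, lit7]
    rw [C4 (c6 := ev (one 6) v) (c7 := ev (one 7) v) (y := ev (wY m) v) hlt (by omega)]
    rfl
  | k8 h1 h2 h3 h4 h5 h6 =>
    refine ⟨8, mem_of_one h1, _, List.mem_cons_of_mem _ (List.mem_cons_of_mem _
      (List.mem_cons_of_mem _ (List.mem_cons_of_mem _ (mem_cover.2 ⟨_, hlt, h2, by
      simp only [List.mem_cons, List.not_mem_nil, or_false]; omega, rfl⟩)))), ?_⟩
    simp only [SA, one_apply, wY_apply, wS_apply, sum_dopt]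
    simp [lit0, lit1, lit2, lit3, lit4, lit8]
    rw [C8 (c8 := ev (one 8) v) hlt (by omega)]
    rfl
  | ky h1 h2 h3 h4 h5 =>
    obtain ⟨n, hn, hi⟩ := exists_y h1
    have e1 : ¬ (n + 9 = 9 + m) := by omega
    have e2 : 9 ≤ n + 9 ∧ n + 9 < 9 + m := by omega
    refine ⟨n + 9, hi, _, by
      rw [fam_y hn]
      exact List.mem_cons_of_mem _ (mem_cover.2 ⟨_, hlt, h2, by
        simp only [List.mem_cons, List.not_mem_nil, or_false]; omega, rfl⟩), ?_⟩
    simp only [SA, one_apply, wY_apply, wS_apply, sum_dopt, if_neg e1, if_pos e2]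
    simp [lit0, lit1, lit2, lit3, lit4]
    rw [C4 (c6 := ev (one 6) v) (c7 := ev (one 7) v) (y := ev (wY m) v) hlt (by omega)]
    rfl
  | kx h1 h2 h3 h4 h5 h6 h7 =>
    refine ⟨9 + m, mem_of_one h1, _, by
      rw [fam_x]
      exact List.mem_cons_of_mem _ (List.mem_cons_of_mem _ (mem_cover.2 ⟨_, hlt, h2, by
        simp only [List.mem_cons, List.not_mem_nil, or_false]; omega, rfl⟩)), ?_⟩
    simp only [SA, id_eq, one_apply, wY_apply, wS_apply, sum_dopt, if_neg e2]
    simp [lit0, lit1, lit2, lit3, lit4, lit1', lit2', lit3', lit4', lit5', lit6', lit7', lit8']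
    rw [C0 hlt]
    rfl
  | ka h1 h2 =>
    refine ⟨0, mem_of_one h1, [], List.mem_cons_self .., ?_⟩
    simpa [SA, one_apply, wY_apply, wS_apply, lit0] using h2
  | kb0 h1 h2 =>
    refine ⟨1, mem_of_one h1, [], List.mem_cons_self .., ?_⟩
    simpa [SA, one_apply, wY_apply, wS_apply, lit1] using h2
  | kba h1 h2 =>
    refine ⟨1, mem_of_one h1, [0], List.mem_cons_of_mem _ (List.mem_cons_self ..), ?_⟩
    simpa [SA, one_apply, wY_apply, wS_apply, lit0, lit1] using h2
  | kp h1 h2 h3 =>
    refine ⟨3, mem_of_one h1, dopt (zv (ev (one 0) v) (ev (one 1) v) (ev (one 3) v)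
      (ev (one 4) v) (ev (one 6) v) (ev (one 7) v) (ev (one 8) v) (ev (wY m) v) - 4), by
        simp only [fam, List.mem_map, List.mem_range]
        exact ⟨_, by omega, rfl⟩, ?_⟩
    simp only [SA, one_apply, wY_apply, wS_apply, sum_dopt]
    simp [lit0, lit1, lit2, lit3, lit4]
    rw [SF_of_r (by omega)]
    unfold zv at h2 h3 ⊢
    omega
  | kq h1 h2 =>
    refine ⟨4, mem_of_one h1, dopt (zv (ev (one 0) v) (ev (one 1) v) (ev (one 3) v)
      (ev (one 4) v) (ev (one 6) v) (ev (one 7) v) (ev (one 8) v) (ev (wY m) v) - 8), by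
        simp only [fam, List.mem_map, List.mem_range]
        exact ⟨_, by omega, rfl⟩, ?_⟩
    simp only [SA, one_apply, wY_apply, wS_apply, sum_dopt]
    simp [lit0, lit1, lit2, lit3, lit4]
    rw [SF_of_r (by omega)]
    unfold zv at h2 hlt ⊢
    omega
  | k5a h1 h2 =>
    refine ⟨5, mem_of_one h1, [0], List.mem_cons_self .., ?_⟩
    simpa [SA, one_apply, wY_apply, wS_apply, lit0, lit5] using h2
  | k6a h1 h2 =>
    refine ⟨6, mem_of_one h1, [0, 5], List.mem_cons_self .., ?_⟩
    simpa [SA, one_apply, wY_apply, wS_apply, lit0, lit5, lit6] using h2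
  | k7a h1 h2 =>
    refine ⟨7, mem_of_one h1, [0, 6], List.mem_cons_self .., ?_⟩
    simpa [SA, one_apply, wY_apply, wS_apply, lit0, lit6, lit7] using h2
  | k8a h1 h2 =>
    refine ⟨8, mem_of_one h1, [5], List.mem_cons_self .., ?_⟩
    simpa [SA, one_apply, wY_apply, wS_apply, lit5, lit8] using h2
  | k8b h1 h2 =>
    refine ⟨8, mem_of_one h1, [0, 5], List.mem_cons_of_mem _ (List.mem_cons_self ..), ?_⟩
    simpa [SA, one_apply, wY_apply, wS_apply, lit0, lit5, lit8] using h2
  | k8c h1 h2 =>
    refine ⟨8, mem_of_one h1, [7], List.mem_cons_of_mem _ (List.mem_cons_of_mem _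
      (List.mem_cons_self ..)), ?_⟩
    simpa [SA, one_apply, wY_apply, wS_apply, lit7, lit8] using h2
  | k8d h1 h2 =>
    refine ⟨8, mem_of_one h1, [0, 7], List.mem_cons_of_mem _ (List.mem_cons_of_mem _
      (List.mem_cons_of_mem _ (List.mem_cons_self ..))), ?_⟩
    simpa [SA, one_apply, wY_apply, wS_apply, lit0, lit7, lit8] using h2
  | ky1 h1 h2 h3 =>
    obtain ⟨n, hn, hi, hs⟩ := exists_y_one h1
    have hn0 : n = 0 := by omega
    subst hn0
    have e1 : ¬ (0 + 9 = 9 + m) := by omega
    have e2 : 9 ≤ 0 + 9 ∧ 0 + 9 < 9 + m := by omega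
    refine ⟨0 + 9, hi, [0], by
      rw [fam_y hn, if_pos rfl]
      exact List.mem_cons_self .., ?_⟩
    simp only [SA, one_apply, wY_apply, wS_apply, if_neg e1, if_pos e2, h1, h2]
    simpa [one_apply, wY_apply, wS_apply, lit0] using h3
  | kyi h1 h2 h3 =>
    obtain ⟨n, hn, hi, hs⟩ := exists_y_one h1
    have hn0 : ¬ n = 0 := by omega
    have e1 : ¬ (n + 9 = 9 + m) := by omega
    have e2 : 9 ≤ n + 9 ∧ n + 9 < 9 + m := by omega
    have e4 : ev (wS m) v - (n + 9 - 8) + (n + 8 - 8) = ev (wS m) v - 1 := by omega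
    have e5 : 9 ≤ n + 8 ∧ n + 8 < 9 + m := by omega
    have e6 : ¬ (n + 8 = 9 + m) := by omega
    have f0 : ¬ (n + 8 = 0) := by omega
    have f1 : ¬ (n + 8 = 1) := by omega
    have f2 : ¬ (n + 8 = 2) := by omega
    have f3 : ¬ (n + 8 = 3) := by omega
    have f4 : ¬ (n + 8 = 4) := by omega
    have f5 : ¬ (n + 8 = 5) := by omega
    have f6 : ¬ (n + 8 = 6) := by omega
    have f7 : ¬ (n + 8 = 7) := by omega
    have f8 : ¬ (n + 8 = 8) := by omega
    have g9 : ¬ (9 ≤ 0 ∧ 0 < 9 + m) := by omega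
    refine ⟨n + 9, hi, [0, n + 8], by
      rw [fam_y hn, if_neg hn0]
      exact List.mem_cons_self .., ?_⟩
    simp only [SA, List.map_cons, List.map_nil, List.sum_cons, List.sum_nil, one_apply,
      wY_apply, wS_apply, if_neg e1, if_pos e2, if_pos e5, if_neg e6, if_neg f0, if_neg f1,
      if_neg f2, if_neg f3, if_neg f4, if_neg f5, if_neg f6, if_neg f7, if_neg f8, if_neg g9,
      Nat.zero_add, Nat.add_zero, e4, h1]
    simpa [lit0] using h3
  | kxa h1 h2 =>
    refine ⟨9 + m, mem_of_one h1, [0], by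
      rw [fam_x]
      exact List.mem_cons_self .., ?_⟩
    simp only [SA, one_apply, wY_apply, wS_apply, if_neg e2]
    simpa [one_apply, wY_apply, wS_apply, lit0, lit1', lit2', lit3', lit4', lit5', lit6', lit7', lit8'] using h2
  | kxy h1 h2 =>
    have e5 : 9 ≤ m + 8 ∧ m + 8 < 9 + m := by omega
    have e6 : ¬ (m + 8 = 9 + m) := by omega
    have f0 : ¬ (m + 8 = 0) := by omega
    have f1 : ¬ (m + 8 = 1) := by omega
    have f2 : ¬ (m + 8 = 2) := by omega
    have f3 : ¬ (m + 8 = 3) := by omega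
    have f4 : ¬ (m + 8 = 4) := by omega
    have f5 : ¬ (m + 8 = 5) := by omega
    have f6 : ¬ (m + 8 = 6) := by omega
    have f7 : ¬ (m + 8 = 7) := by omega
    have f8 : ¬ (m + 8 = 8) := by omega
    refine ⟨9 + m, mem_of_one h1, [m + 8], by
      rw [fam_x]
      exact List.mem_cons_of_mem _ (List.mem_cons_self ..), ?_⟩
    simp only [SA, List.map_cons, List.map_nil, List.sum_cons, List.sum_nil, one_apply,
      wY_apply, wS_apply, if_neg e2, if_pos e5, if_neg e6, if_neg f0, if_neg f1,
      if_neg f2, if_neg f3, if_neg f4, if_neg f5, if_neg f6, if_neg f7, if_neg f8,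
      Nat.add_zero, Nat.sub_zero, Nat.add_sub_cancel]
    simpa [lit1', lit2', lit3', lit4', lit5', lit6', lit7', lit8'] using h2

theorem some_pos {i : ℕ} (hi : i ∈ v) {w : List ℕ} (hw : w ∈ fam m i) :
    1 ≤ ev (one 0) v ∨ 1 ≤ ev (one 1) v ∨ 1 ≤ ev (one 2) v ∨ 1 ≤ ev (one 3) v ∨
    1 ≤ ev (one 4) v ∨ 1 ≤ ev (one 5) v ∨ 1 ≤ ev (one 6) v ∨ 1 ≤ ev (one 7) v ∨
    1 ≤ ev (one 8) v ∨ 1 ≤ ev (wY m) v ∨ 1 ≤ ev (one (9 + m)) v := by
  rcases Nat.lt_or_ge i 9 with h9 | h9
  · interval_cases i
    · exact Or.inl (one_of_mem hi)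
    · exact Or.inr (Or.inl (one_of_mem hi))
    · exact Or.inr (Or.inr (Or.inl (one_of_mem hi)))
    · exact Or.inr (Or.inr (Or.inr (Or.inl (one_of_mem hi))))
    · exact Or.inr (Or.inr (Or.inr (Or.inr (Or.inl (one_of_mem hi)))))
    · exact Or.inr (Or.inr (Or.inr (Or.inr (Or.inr (Or.inl (one_of_mem hi))))))
    · exact Or.inr (Or.inr (Or.inr (Or.inr (Or.inr (Or.inr (Or.inl (one_of_mem hi)))))))
    · exact Or.inr (Or.inr (Or.inr (Or.inr (Or.inr (Or.inr (Or.inr (Or.inl
        (one_of_mem hi))))))))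
    · exact Or.inr (Or.inr (Or.inr (Or.inr (Or.inr (Or.inr (Or.inr (Or.inr (Or.inl
        (one_of_mem hi)))))))))
  · rcases Nat.lt_or_ge i (9 + m) with h10 | h10
    · have := le_ev_of_mem (wY m) hi
      rw [wY_apply, if_pos ⟨h9, h10⟩] at this
      exact Or.inr (Or.inr (Or.inr (Or.inr (Or.inr (Or.inr (Or.inr (Or.inr (Or.inr (Or.inl
        this)))))))))
    · obtain ⟨n, rfl⟩ := Nat.exists_eq_add_of_le' h9
      simp only [fam] at hw
      rw [if_neg (by omega)] at hw
      split_ifs at hw with hnm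
      · rw [hnm, Nat.add_comm m 9] at hi
        exact Or.inr (Or.inr (Or.inr (Or.inr (Or.inr (Or.inr (Or.inr (Or.inr (Or.inr (Or.inr
          (one_of_mem hi))))))))))
      · simp at hw

theorem mv_of_mem {i : ℕ} (hi : i ∈ v) {w : List ℕ} (hw : w ∈ fam m i) :
    ∃ v', Mv (fam m) v v' := ⟨_, i, hi, w, hw, rfl⟩

/-- The function `Sm` is the misere outcome function of the family. -/
theorem fam_outcome (hm : 1 ≤ m) : IsOutcome (fam m) (Sm m) := by
  intro v
  constructor
  · intro h
    constructor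
    · rcases exists_pos_of_SF h with h1 | h1 | h1 | h1 | h1 | h1 | h1 | h1 | h1 | h1
      · exact mv_of_mem (mem_of_one h1) (List.mem_cons_self ..)
      · exact mv_of_mem (mem_of_one h1) (List.mem_cons_self ..)
      · exact mv_of_mem (mem_of_one h1) (List.mem_cons_self ..)
      · refine mv_of_mem (w := dopt 0) (mem_of_one h1) ?_
        simp only [fam, List.mem_map, List.mem_range]
        exact ⟨0, by omega, rfl⟩
      · refine mv_of_mem (w := dopt 0) (mem_of_one h1) ?_
        simp only [fam, List.mem_map, List.mem_range]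
        exact ⟨0, by omega, rfl⟩
      · exact mv_of_mem (mem_of_one h1) (List.mem_cons_self ..)
      · exact mv_of_mem (mem_of_one h1) (List.mem_cons_self ..)
      · exact mv_of_mem (mem_of_one h1) (List.mem_cons_self ..)
      · exact mv_of_mem (mem_of_one h1) (List.mem_cons_self ..)
      · obtain ⟨n, hn, hi⟩ := exists_y h1
        refine mv_of_mem hi (w := if n = 0 then [0] else [0, n + 8]) ?_
        rw [fam_y hn]
        exact List.mem_cons_self ..
    · rintro v' ⟨i, hi, w, hw, rfl⟩
      rw [Sm_move m hi w]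
      exact P_move hm h hi hw
  · rintro ⟨⟨v', i, hi, w, hw, rfl⟩, hall⟩
    by_contra hS
    obtain ⟨i', hi', w', hw', h'⟩ := good_of_PO hm (N_exists hm (hs_le m v) (hs_zero m v)
      (hs_one m v) hS (some_pos hi hw))
    exact hall _ ⟨i', hi', w', hw', rfl⟩ ((Sm_move m hi' w').2 h')

end Pool.Agent.Lib.MP_bc0e65_co
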