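import Pool.Agent.Lib.MP_bc0e65_co.Defs

/-!
Closed sets of games given by rules: positions are multisets of generators `0, 1, 2, …`, and
`opts i` lists the options of the generator `i`, each of them a list of smaller generators.
-/

namespace Pool.Agent.Lib.MP_bc0e65_co

open Game

/-- The generator games determined by the rules `opts`. -/
def gen (opts : ℕ → List (List ℕ)) (i : ℕ) : Game :=
  Game.mk (opts i).length (fun j => ((opts i).get j).foldr
    (fun x acc => (if _ : x < i then gen opts x else 0) + acc) 0)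
termination_by i

/-- `Rep opts G v`: the game `G` is a sum of generators, with multiset of summands `v`. -/
inductive Rep (opts : ℕ → List (List ℕ)) : Game → Multiset ℕ → Prop
  | zero : Rep opts 0 0
  | gen (i : ℕ) : Rep opts (gen opts i) {i}
  | add (G H : Game) (v w : Multiset ℕ) : Rep opts G v → Rep opts H w → Rep opts (G + H) (v + w)

/-- The moves on multisets of generators. -/
def Mv (opts : ℕ → List (List ℕ)) (v v' : Multiset ℕ) : Prop :=
  ∃ i ∈ v, ∃ w ∈ opts i, v' = v.erase i + (w : Multiset ℕ)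

/-- The rules are well-founded. -/
def Lower (opts : ℕ → List (List ℕ)) : Prop := ∀ i, ∀ w ∈ opts i, ∀ x ∈ w, x < i

variable {opts : ℕ → List (List ℕ)}

theorem rep_foldr (i : ℕ) (w : List ℕ) (hw : ∀ x ∈ w, x < i) :
    Rep opts (w.foldr (fun x acc => (if _ : x < i then gen opts x else 0) + acc) 0) w := by
  induction w with
  | nil => exact Rep.zero
  | cons x w ih =>
    have hx : x < i := hw x (List.mem_cons_self ..)
    have h := ih (fun y hy => hw y (List.mem_cons_of_mem _ hy))
    rw [List.foldr_cons, dif_pos hx]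
    have e : ((x :: w : List ℕ) : Multiset ℕ) = {x} + (w : Multiset ℕ) := by
      rw [← Multiset.cons_coe, Multiset.singleton_add]
    rw [e]
    exact Rep.add _ _ _ _ (Rep.gen x) h

theorem mv_add_left {v v' : Multiset ℕ} (w : Multiset ℕ) (h : Mv opts v v') :
    Mv opts (v + w) (v' + w) := by
  obtain ⟨i, hi, u, hu, rfl⟩ := h
  refine ⟨i, Multiset.mem_add.2 (Or.inl hi), u, hu, ?_⟩
  rw [Multiset.erase_add_left_pos w hi]
  exact add_right_comm _ _ _

theorem mv_add_right {w w' : Multiset ℕ} (v : Multiset ℕ) (h : Mv opts w w') :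
    Mv opts (v + w) (v + w') := by
  rw [add_comm v w, add_comm v w']
  exact mv_add_left v h

theorem mv_add_cases {v w z : Multiset ℕ} (h : Mv opts (v + w) z) :
    (∃ v', Mv opts v v' ∧ z = v' + w) ∨ (∃ w', Mv opts w w' ∧ z = v + w') := by
  obtain ⟨i, hi, u, hu, rfl⟩ := h
  by_cases hiv : i ∈ v
  · refine Or.inl ⟨v.erase i + u, ⟨i, hiv, u, hu, rfl⟩, ?_⟩
    rw [Multiset.erase_add_left_pos w hiv]
    exact add_right_comm _ _ _
  · have hiw : i ∈ w := (Multiset.mem_add.1 hi).resolve_left hiv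
    refine Or.inr ⟨w.erase i + u, ⟨i, hiw, u, hu, rfl⟩, ?_⟩
    rw [Multiset.erase_add_right_pos v hiw, add_assoc]

theorem rep_options (hl : Lower opts) {G : Game} {v : Multiset ℕ} (h : Rep opts G v) :
    (∀ H, IsOption H G → ∃ v', Mv opts v v' ∧ Rep opts H v') ∧
    (∀ v', Mv opts v v' → ∃ H, IsOption H G ∧ Rep opts H v') := by
  induction h with
  | zero =>
    refine ⟨fun H hH => absurd hH (not_isOption_zero H), ?_⟩
    rintro v' ⟨i, hi, _⟩
    exact absurd hi (Multiset.notMem_zero i)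
  | gen i =>
    rw [gen]
    constructor
    · rintro H ⟨j, rfl⟩
      refine ⟨((opts i).get j : Multiset ℕ), ⟨i, Multiset.mem_singleton_self i, (opts i).get j,
        List.get_mem _ _, by simp⟩, ?_⟩
      exact rep_foldr i _ (hl i _ (List.get_mem _ _))
    · rintro v' ⟨i', hi', w, hw, rfl⟩
      rw [Multiset.mem_singleton] at hi'
      subst hi'
      obtain ⟨j, rfl⟩ := List.get_of_mem hw
      refine ⟨_, ⟨j, rfl⟩, ?_⟩
      simpa using rep_foldr i' ((opts i').get j) (hl i' _ (List.get_mem _ _))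
  | add G H v w hG hH ihG ihH =>
    constructor
    · intro K hK
      rw [isOption_add] at hK
      rcases hK with ⟨G', hG', rfl⟩ | ⟨H', hH', rfl⟩
      · obtain ⟨v', hv', hr⟩ := ihG.1 G' hG'
        exact ⟨v' + w, mv_add_left w hv', Rep.add _ _ _ _ hr hH⟩
      · obtain ⟨w', hw', hr⟩ := ihH.1 H' hH'
        exact ⟨v + w', mv_add_right v hw', Rep.add _ _ _ _ hG hr⟩
    · intro z hz
      rcases mv_add_cases hz with ⟨v', hv', rfl⟩ | ⟨w', hw', rfl⟩
      · obtain ⟨G', hG', hr⟩ := ihG.2 v' hv'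
        exact ⟨G' + H, (isOption_add _ _ _).2 (Or.inl ⟨G', hG', rfl⟩), Rep.add _ _ _ _ hr hH⟩
      · obtain ⟨H', hH', hr⟩ := ihH.2 w' hw'
        exact ⟨G + H', (isOption_add _ _ _).2 (Or.inr ⟨H', hH', rfl⟩), Rep.add _ _ _ _ hG hr⟩

/-- `S` is the misere outcome function of the rules. -/
def IsOutcome (opts : ℕ → List (List ℕ)) (S : Multiset ℕ → Prop) : Prop :=
  ∀ v, S v ↔ (∃ v', Mv opts v v') ∧ ∀ v', Mv opts v v' → ¬ S v'

theorem isP_iff_of_rep (hl : Lower opts) {S : Multiset ℕ → Prop} (hS : IsOutcome opts S)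
    {G : Game} {v : Multiset ℕ} (h : Rep opts G v) : IsP G ↔ S v := by
  induction G using option_induction generalizing v with
  | h G ih =>
    obtain ⟨h1, h2⟩ := rep_options hl h
    rw [isP_iff, hS v]
    constructor
    · rintro ⟨⟨H, hH⟩, h3⟩
      obtain ⟨v', hv', _⟩ := h1 H hH
      refine ⟨⟨v', hv'⟩, fun v' hv' hSv => ?_⟩
      obtain ⟨H, hH, hr⟩ := h2 v' hv'
      exact h3 H hH ((ih H hH hr).2 hSv)
    · rintro ⟨⟨v', hv'⟩, h3⟩
      obtain ⟨H, hH, _⟩ := h2 v' hv'
      refine ⟨⟨H, hH⟩, fun H hH hP => ?_⟩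
      obtain ⟨v', hv', hr⟩ := h1 H hH
      exact h3 v' hv' ((ih H hH hr).1 hP)

/-- The closed set of games generated by the rules. -/
def ruleSet (opts : ℕ → List (List ℕ)) (hl : Lower opts) : ClosedSet where
  carrier := {G | ∃ v, Rep opts G v}
  nonempty := ⟨0, 0, Rep.zero⟩
  add_mem := by
    rintro G ⟨v, hG⟩ H ⟨w, hH⟩
    exact ⟨v + w, Rep.add _ _ _ _ hG hH⟩
  option_mem := by
    rintro G ⟨v, hG⟩ H hH
    obtain ⟨v', _, hr⟩ := (rep_options hl hG).1 H hH
    exact ⟨v', hr⟩

theorem rep_exists (opts : ℕ → List (List ℕ)) (v : Multiset ℕ) : ∃ G, Rep opts G v := by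
  induction v using Multiset.induction with
  | empty => exact ⟨0, Rep.zero⟩
  | cons i v ih =>
    obtain ⟨G, hG⟩ := ih
    refine ⟨gen opts i + G, ?_⟩
    rw [← Multiset.singleton_add]
    exact Rep.add _ _ _ _ (Rep.gen i) hG

/-- The class of (a game representing) the multiset `v`. -/
noncomputable def mcls (opts : ℕ → List (List ℕ)) (hl : Lower opts) (v : Multiset ℕ) :
    MisereQuotient (ruleSet opts hl) :=
  cls (ruleSet opts hl) ⟨(rep_exists opts v).choose, v, (rep_exists opts v).choose_spec⟩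

theorem cls_eq_iff (hl : Lower opts) {S : Multiset ℕ → Prop} (hS : IsOutcome opts S)
    (G H : (ruleSet opts hl).carrier) (v w : Multiset ℕ) (hG : Rep opts G.1 v)
    (hH : Rep opts H.1 w) :
    cls (ruleSet opts hl) G = cls (ruleSet opts hl) H ↔ ∀ u, S (v + u) ↔ S (w + u) := by
  constructor
  · intro h u
    have h' := Quotient.exact h
    obtain ⟨K, hK⟩ := rep_exists opts u
    have := h' ⟨K, u, hK⟩
    rwa [isP_iff_of_rep hl hS (Rep.add _ _ _ _ hG hK),
      isP_iff_of_rep hl hS (Rep.add _ _ _ _ hH hK)] at this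
  · intro h
    refine Quotient.sound ?_
    rintro ⟨K, u, hK⟩
    change IsP (G.1 + K) ↔ IsP (H.1 + K)
    rw [isP_iff_of_rep hl hS (Rep.add _ _ _ _ hG hK),
      isP_iff_of_rep hl hS (Rep.add _ _ _ _ hH hK)]
    exact h u

theorem mcls_eq_iff (hl : Lower opts) {S : Multiset ℕ → Prop} (hS : IsOutcome opts S)
    (v w : Multiset ℕ) : mcls opts hl v = mcls opts hl w ↔ ∀ u, S (v + u) ↔ S (w + u) :=
  cls_eq_iff hl hS _ _ v w (rep_exists opts v).choose_spec (rep_exists opts w).choose_spec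

theorem mcls_add (hl : Lower opts) {S : Multiset ℕ → Prop} (hS : IsOutcome opts S)
    (v w : Multiset ℕ) : mcls opts hl (v + w) = mcls opts hl v + mcls opts hl w := by
  change _ = cls (ruleSet opts hl) ⟨(rep_exists opts v).choose + (rep_exists opts w).choose, _⟩
  exact (cls_eq_iff hl hS _ _ (v + w) (v + w) (rep_exists opts (v + w)).choose_spec
    (Rep.add _ _ _ _ (rep_exists opts v).choose_spec (rep_exists opts w).choose_spec)).2
    (fun _ => Iff.rfl)

theorem mcls_zero (hl : Lower opts) {S : Multiset ℕ → Prop} (hS : IsOutcome opts S) :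
    mcls opts hl 0 = 0 := by
  change _ = cls (ruleSet opts hl) ⟨(0 : Game), _⟩
  exact (cls_eq_iff hl hS _ _ 0 0 (rep_exists opts 0).choose_spec Rep.zero).2
    (fun _ => Iff.rfl)

theorem nsmul_mcls (hl : Lower opts) {S : Multiset ℕ → Prop} (hS : IsOutcome opts S)
    (v : Multiset ℕ) (k : ℕ) : k • mcls opts hl v = mcls opts hl (k • v) := by
  induction k with
  | zero => rw [zero_nsmul, zero_nsmul, mcls_zero hl hS]
  | succ k ih => rw [succ_nsmul, succ_nsmul, mcls_add hl hS, ih]

/-- Criterion for periods.  If `S` is periodic with period `P` in the direction `v` (from `m0` on)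
and the sequence `S (n • v + u)` has no smaller period on any tail, then the class of `k • v` has
period `p` whenever `P = k * p`. -/
theorem hasPeriod_of (hl : Lower opts) {S : Multiset ℕ → Prop} (hS : IsOutcome opts S)
    (v u : Multiset ℕ) (m0 P k p : ℕ) (hk : 1 ≤ k) (hp : 1 ≤ p) (hP : P = k * p)
    (h1 : ∀ n, m0 ≤ n → ∀ w, S ((n + P) • v + w) ↔ S (n • v + w))
    (h2 : ∀ q, 1 ≤ q → q < P → ∀ m, ∃ n, m ≤ n ∧ ¬ (S ((n + q) • v + u) ↔ S (n • v + u))) :
    HasPeriod (mcls opts hl (k • v)) p := by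
  refine ⟨⟨hp, m0 + 1, by omega, ?_⟩, ?_⟩
  · rw [nsmul_mcls hl hS, nsmul_mcls hl hS, mcls_eq_iff hl hS]
    intro w
    rw [← mul_nsmul', ← mul_nsmul']
    have e : (m0 + 1 + p) * k = (m0 + 1) * k + P := by rw [hP]; ring
    rw [e]
    exact h1 _ (by nlinarith) w
  · rintro q ⟨hq, m, hm, h⟩
    by_contra hlt
    push Not at hlt
    rw [nsmul_mcls hl hS, nsmul_mcls hl hS, mcls_eq_iff hl hS] at h
    obtain ⟨n, hn, hne⟩ := h2 (k * q) (Nat.mul_pos hk hq)
      (by rw [hP]; exact Nat.mul_lt_mul_of_pos_left hlt hk) (m * k)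
    apply hne
    obtain ⟨t, rfl⟩ := Nat.exists_eq_add_of_le hn
    have := h (t • v + u)
    rw [← mul_nsmul', ← mul_nsmul'] at this
    have e1 : (m * k + t + k * q) • v + u = ((m + q) * k) • v + (t • v + u) := by
      rw [← add_assoc, ← add_nsmul]
      congr 2
      ring
    have e2 : (m * k + t) • v + u = (m * k) • v + (t • v + u) := by
      rw [← add_assoc, ← add_nsmul]
    rw [e1, e2]
    exact this

end Pool.Agent.Lib.MP_bc0e65_co
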