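import Pool.Agent.Lib.MP_bc0e65_co.Rep

/-!
Rule systems with four generators whose outcome function is given by a finite table.
-/

namespace Pool.Agent.Lib.MP_bc0e65_co

/-- Reduction of a natural number modulo `m + p = m`. -/
def red (m p n : ℕ) : ℕ := if n < m + p then n else m + (n - m) % p

/-- A second reduction, which never maps a positive number to zero. -/
def hat (m p n : ℕ) : ℕ := if n ≤ m + p then n else m + 1 + (n - m - 1) % p

theorem red_add_mul (m p n t : ℕ) (h : m ≤ n) : red m p (n + p * t) = red m p n := by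
  rcases Nat.eq_zero_or_pos p with rfl | hp
  · simp
  have key : ∀ k, m ≤ k → red m p k = m + (k - m) % p := by
    intro k hk
    unfold red
    split_ifs with h1
    · rw [Nat.mod_eq_of_lt (by omega)]
      omega
    · rfl
  rw [key _ (by omega), key _ h]
  have e : n + p * t - m = (n - m) + p * t := by omega
  rw [e, Nat.add_mul_mod_self_left]

theorem hat_spec (m p n : ℕ) (hp : 1 ≤ p) :
    hat m p n = n ∨ (m + 1 ≤ hat m p n ∧ ∃ t, n = hat m p n + p * t) := by
  unfold hat
  split_ifs with h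
  · exact Or.inl rfl
  · right
    refine ⟨by omega, (n - m - 1) / p, ?_⟩
    have := Nat.mod_add_div (n - m - 1) p
    omega

theorem hat_le (m p n : ℕ) (hp : 1 ≤ p) : hat m p n ≤ m + p := by
  unfold hat
  split_ifs with h
  · exact h
  · have := Nat.mod_lt (n - m - 1) hp
    omega

theorem hat_eq_zero (m p n : ℕ) : hat m p n = 0 ↔ n = 0 := by
  unfold hat
  split_ifs with h
  · exact Iff.rfl
  · omega

theorem red_hat_add (m p n k : ℕ) (hp : 1 ≤ p) : red m p (hat m p n + k) = red m p (n + k) := by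
  rcases hat_spec m p n hp with h | ⟨h, t, ht⟩
  · rw [h]
  · have e : n + k = (hat m p n + k) + p * t := by omega
    rw [e, red_add_mul _ _ _ _ (by omega)]

theorem red_hat_pred (m p n k : ℕ) (hp : 1 ≤ p) :
    red m p (hat m p n - 1 + k) = red m p (n - 1 + k) := by
  rcases hat_spec m p n hp with h | ⟨h, t, ht⟩
  · rw [h]
  · have e : n - 1 + k = (hat m p n - 1 + k) + p * t := by omega
    rw [e, red_add_mul _ _ _ _ (by omega)]

/-- A position of a system with four generators. -/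
abbrev V4 : Type := ℕ × ℕ × ℕ × ℕ

/-- The multiplicities of the generators `0, 1, 2, 3`. -/
def vec (v : Multiset ℕ) : V4 := (v.count 0, v.count 1, v.count 2, v.count 3)

/-- The multiplicities of the generators `0, 1, 2, 3` in a list. -/
def lvec (w : List ℕ) : V4 := (w.count 0, w.count 1, w.count 2, w.count 3)

/-- All moves of a system with four generators. -/
def mvs (opts : ℕ → List (List ℕ)) (x : V4) : List V4 :=
  (if x.1 = 0 then [] else (opts 0).map (fun w =>
    (x.1 - 1 + w.count 0, x.2.1 + w.count 1, x.2.2.1 + w.count 2, x.2.2.2 + w.count 3))) ++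
  (if x.2.1 = 0 then [] else (opts 1).map (fun w =>
    (x.1 + w.count 0, x.2.1 - 1 + w.count 1, x.2.2.1 + w.count 2, x.2.2.2 + w.count 3))) ++
  (if x.2.2.1 = 0 then [] else (opts 2).map (fun w =>
    (x.1 + w.count 0, x.2.1 + w.count 1, x.2.2.1 - 1 + w.count 2, x.2.2.2 + w.count 3))) ++
  (if x.2.2.2 = 0 then [] else (opts 3).map (fun w =>
    (x.1 + w.count 0, x.2.1 + w.count 1, x.2.2.1 + w.count 2, x.2.2.2 - 1 + w.count 3)))

theorem mem_ite_nil {α : Type} (c : ℕ) (l : List α) (y : α) :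
    y ∈ (if c = 0 then [] else l) ↔ c ≠ 0 ∧ y ∈ l := by
  split_ifs with h
  · simp [h]
  · simp [h]

theorem mem_mvs (opts : ℕ → List (List ℕ)) (x y : V4) : y ∈ mvs opts x ↔
    (x.1 ≠ 0 ∧ ∃ w ∈ opts 0, (x.1 - 1 + w.count 0, x.2.1 + w.count 1,
      x.2.2.1 + w.count 2, x.2.2.2 + w.count 3) = y) ∨
    (x.2.1 ≠ 0 ∧ ∃ w ∈ opts 1, (x.1 + w.count 0, x.2.1 - 1 + w.count 1,
      x.2.2.1 + w.count 2, x.2.2.2 + w.count 3) = y) ∨
    (x.2.2.1 ≠ 0 ∧ ∃ w ∈ opts 2, (x.1 + w.count 0, x.2.1 + w.count 1,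
      x.2.2.1 - 1 + w.count 2, x.2.2.2 + w.count 3) = y) ∨
    (x.2.2.2 ≠ 0 ∧ ∃ w ∈ opts 3, (x.1 + w.count 0, x.2.1 + w.count 1,
      x.2.2.1 + w.count 2, x.2.2.2 - 1 + w.count 3) = y) := by
  simp only [mvs, List.mem_append, mem_ite_nil, List.mem_map, or_assoc]

theorem mem_mvs_iff (opts : ℕ → List (List ℕ)) (h4 : ∀ i, 4 ≤ i → opts i = []) (v : Multiset ℕ)
    (y : V4) : y ∈ mvs opts (vec v) ↔ ∃ v', Mv opts v v' ∧ vec v' = y := by
  rw [mem_mvs]
  constructor
  · rintro (⟨h0, w, hw, rfl⟩ | ⟨h0, w, hw, rfl⟩ | ⟨h0, w, hw, rfl⟩ | ⟨h0, w, hw, rfl⟩)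
    · refine ⟨_, ⟨0, Multiset.count_pos.1 (Nat.pos_of_ne_zero h0), w, hw, rfl⟩, ?_⟩
      simp [vec]
    · refine ⟨_, ⟨1, Multiset.count_pos.1 (Nat.pos_of_ne_zero h0), w, hw, rfl⟩, ?_⟩
      simp [vec]
    · refine ⟨_, ⟨2, Multiset.count_pos.1 (Nat.pos_of_ne_zero h0), w, hw, rfl⟩, ?_⟩
      simp [vec]
    · refine ⟨_, ⟨3, Multiset.count_pos.1 (Nat.pos_of_ne_zero h0), w, hw, rfl⟩, ?_⟩
      simp [vec]
  · rintro ⟨v', ⟨i, hi, w, hw, rfl⟩, rfl⟩
    have hc : v.count i ≠ 0 := (Multiset.count_pos.2 hi).ne'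
    have hi4 : i < 4 := by
      by_contra hge
      rw [h4 i (by omega)] at hw
      simp at hw
    interval_cases i
    · exact Or.inl ⟨hc, w, hw, by simp [vec]⟩
    · exact Or.inr (Or.inl ⟨hc, w, hw, by simp [vec]⟩)
    · exact Or.inr (Or.inr (Or.inl ⟨hc, w, hw, by simp [vec]⟩))
    · exact Or.inr (Or.inr (Or.inr ⟨hc, w, hw, by simp [vec]⟩))

/-- The outcome recursion for a Boolean function `F` at the position `x`. -/
def chk (opts : ℕ → List (List ℕ)) (F : V4 → Bool) (x : V4) : Bool :=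
  F x == (!(mvs opts x).isEmpty && (mvs opts x).all (fun y => !F y))

theorem isOutcome_of_chk (opts : ℕ → List (List ℕ)) (h4 : ∀ i, 4 ≤ i → opts i = [])
    (F : V4 → Bool) (h : ∀ x, chk opts F x = true) :
    IsOutcome opts (fun v => F (vec v) = true) := by
  intro v
  have h1 := h (vec v)
  rw [chk, beq_iff_eq] at h1
  change F (vec v) = true ↔ _
  rw [h1, Bool.and_eq_true, List.all_eq_true]
  constructor
  · rintro ⟨h2, h3⟩
    constructor
    · rw [Bool.not_eq_true', List.isEmpty_eq_false_iff_exists_mem] at h2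
      obtain ⟨y, hy⟩ := h2
      obtain ⟨v', hv', _⟩ := (mem_mvs_iff opts h4 v y).1 hy
      exact ⟨v', hv'⟩
    · intro v' hv' hF
      have := h3 _ ((mem_mvs_iff opts h4 v _).2 ⟨v', hv', rfl⟩)
      rw [hF] at this
      exact absurd this (by decide)
  · rintro ⟨⟨v', hv'⟩, h3⟩
    constructor
    · rw [Bool.not_eq_true', List.isEmpty_eq_false_iff_exists_mem]
      exact ⟨_, (mem_mvs_iff opts h4 v _).2 ⟨v', hv', rfl⟩⟩
    · intro y hy
      obtain ⟨v', hv', rfl⟩ := (mem_mvs_iff opts h4 v y).1 hy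
      have := h3 v' hv'
      simpa using this

/-- A table of outcomes: the four pairs (index, period) and the bit mask. -/
structure Tab where
  m0 : ℕ
  p0 : ℕ
  m1 : ℕ
  p1 : ℕ
  m2 : ℕ
  p2 : ℕ
  m3 : ℕ
  p3 : ℕ
  mask : ℕ

/-- The Boolean function given by a table. -/
def Tab.F (t : Tab) (x : V4) : Bool :=
  t.mask.testBit (red t.m0 t.p0 x.1 + (t.m0 + t.p0) * (red t.m1 t.p1 x.2.1 +
    (t.m1 + t.p1) * (red t.m2 t.p2 x.2.2.1 + (t.m2 + t.p2) * red t.m3 t.p3 x.2.2.2)))

/-- The reduced position. -/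
def Tab.hat (t : Tab) (x : V4) : V4 :=
  (MP_bc0e65_co.hat t.m0 t.p0 x.1, MP_bc0e65_co.hat t.m1 t.p1 x.2.1,
    MP_bc0e65_co.hat t.m2 t.p2 x.2.2.1, MP_bc0e65_co.hat t.m3 t.p3 x.2.2.2)

/-- The finite check. -/
def Tab.ok (t : Tab) (opts : ℕ → List (List ℕ)) : Bool :=
  decide (1 ≤ t.p0) && decide (1 ≤ t.p1) && decide (1 ≤ t.p2) && decide (1 ≤ t.p3) &&
  (List.range (t.m0 + t.p0 + 1)).all fun a => (List.range (t.m1 + t.p1 + 1)).all fun b =>
  (List.range (t.m2 + t.p2 + 1)).all fun c => (List.range (t.m3 + t.p3 + 1)).all fun d =>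
    chk opts t.F (a, b, c, d)

theorem Tab.chk_of_ok (t : Tab) (opts : ℕ → List (List ℕ)) (h : t.ok opts = true) (x : V4) :
    chk opts t.F x = true := by
  simp only [Tab.ok, Bool.and_eq_true, decide_eq_true_eq, List.all_eq_true, List.mem_range] at h
  obtain ⟨⟨⟨⟨h0, h1⟩, h2⟩, h3⟩, h⟩ := h
  have hh := h _ (Nat.lt_succ_of_le (hat_le t.m0 t.p0 x.1 h0))
    _ (Nat.lt_succ_of_le (hat_le t.m1 t.p1 x.2.1 h1))
    _ (Nat.lt_succ_of_le (hat_le t.m2 t.p2 x.2.2.1 h2))
    _ (Nat.lt_succ_of_le (hat_le t.m3 t.p3 x.2.2.2 h3))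
  have eF : t.F (t.hat x) = t.F x := by
    have e0 := red_hat_add t.m0 t.p0 x.1 0 h0
    have e1 := red_hat_add t.m1 t.p1 x.2.1 0 h1
    have e2 := red_hat_add t.m2 t.p2 x.2.2.1 0 h2
    have e3 := red_hat_add t.m3 t.p3 x.2.2.2 0 h3
    simp only [add_zero] at e0 e1 e2 e3
    simp only [Tab.F, Tab.hat, e0, e1, e2, e3]
  have eM : (mvs opts (t.hat x)).map t.F = (mvs opts x).map t.F := by
    simp only [mvs, Tab.hat, hat_eq_zero, List.map_append]
    congr 1
    · congr 1
      · congr 1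
        · split_ifs
          · rfl
          · rw [List.map_map, List.map_map]
            refine List.map_congr_left (fun w _ => ?_)
            simp only [Function.comp, Tab.F, red_hat_add _ _ _ _ h1, red_hat_add _ _ _ _ h2,
              red_hat_add _ _ _ _ h3, red_hat_pred _ _ _ _ h0]
        · split_ifs
          · rfl
          · rw [List.map_map, List.map_map]
            refine List.map_congr_left (fun w _ => ?_)
            simp only [Function.comp, Tab.F, red_hat_add _ _ _ _ h0, red_hat_add _ _ _ _ h2,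
              red_hat_add _ _ _ _ h3, red_hat_pred _ _ _ _ h1]
      · split_ifs
        · rfl
        · rw [List.map_map, List.map_map]
          refine List.map_congr_left (fun w _ => ?_)
          simp only [Function.comp, Tab.F, red_hat_add _ _ _ _ h0, red_hat_add _ _ _ _ h1,
            red_hat_add _ _ _ _ h3, red_hat_pred _ _ _ _ h2]
    · split_ifs
      · rfl
      · rw [List.map_map, List.map_map]
        refine List.map_congr_left (fun w _ => ?_)
        simp only [Function.comp, Tab.F, red_hat_add _ _ _ _ h0, red_hat_add _ _ _ _ h1,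
          red_hat_add _ _ _ _ h2, red_hat_pred _ _ _ _ h3]
  have e1 : ∀ y : V4, ((mvs opts y).isEmpty = ((mvs opts y).map t.F).isEmpty) := by
    intro y
    rw [List.isEmpty_map]
  have e2 : ∀ y : V4, (mvs opts y).all (fun z => !t.F z) =
      ((mvs opts y).map t.F).all (fun b => !b) := by
    intro y
    rw [List.all_map]
    rfl
  change chk opts t.F (t.hat x) = true at hh
  rw [chk, beq_iff_eq, eF, e1, e2, eM, ← e1, ← e2] at hh
  rw [chk, beq_iff_eq]
  exact hh

theorem Tab.isOutcome (t : Tab) (opts : ℕ → List (List ℕ)) (h4 : ∀ i, 4 ≤ i → opts i = [])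
    (h : t.ok opts = true) : IsOutcome opts (fun v => t.F (vec v) = true) :=
  isOutcome_of_chk opts h4 t.F (t.chk_of_ok opts h)

/-- The multiset with `n` copies of the generator `3` and `c` copies of `2`, etc. -/
def pos (a b c d : ℕ) : Multiset ℕ :=
  a • {0} + b • {1} + c • {2} + d • {3}

theorem vec_nsmul_three (n : ℕ) (w : Multiset ℕ) :
    vec (n • {3} + w) = ((vec w).1, (vec w).2.1, (vec w).2.2.1, n + (vec w).2.2.2) := by
  simp [vec, Multiset.count_nsmul]

/-- Criterion for periods of multiples of the generator `3` in a system given by a table. -/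
theorem Tab.hasPeriod (t : Tab) (opts : ℕ → List (List ℕ)) (hl : Lower opts)
    (h4 : ∀ i, 4 ≤ i → opts i = []) (h : t.ok opts = true) (u : Multiset ℕ) (k p : ℕ)
    (hk : 1 ≤ k) (hp : 1 ≤ p) (hP : t.p3 = k * p)
    (h2 : ∀ q, 1 ≤ q → q < t.p3 → ∃ n, n < t.p3 ∧
      t.F ((vec u).1, (vec u).2.1, (vec u).2.2.1, t.m3 + n + q + (vec u).2.2.2) ≠
      t.F ((vec u).1, (vec u).2.1, (vec u).2.2.1, t.m3 + n + (vec u).2.2.2)) :
    HasPeriod (mcls opts hl (k • {3})) p := by
  refine hasPeriod_of hl (t.isOutcome opts h4 h) {3} u t.m3 t.p3 k p hk hp hP ?_ ?_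
  · intro n hn w
    rw [vec_nsmul_three, vec_nsmul_three]
    have e : red t.m3 t.p3 (n + t.p3 + (vec w).2.2.2) = red t.m3 t.p3 (n + (vec w).2.2.2) := by
      have := red_add_mul t.m3 t.p3 (n + (vec w).2.2.2) 1 (by omega)
      rw [mul_one] at this
      rw [← this]
      congr 1
      omega
    simp only [Tab.F, e]
  · intro q hq hq' m
    obtain ⟨n, _, hne⟩ := h2 q hq hq'
    refine ⟨t.m3 + n + t.p3 * m, ?_, ?_⟩
    · have : 1 ≤ t.p3 := by omega
      nlinarith
    · rw [vec_nsmul_three, vec_nsmul_three]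
      intro hiff
      apply hne
      have e1 : red t.m3 t.p3 (t.m3 + n + t.p3 * m + q + (vec u).2.2.2) =
          red t.m3 t.p3 (t.m3 + n + q + (vec u).2.2.2) := by
        rw [← red_add_mul t.m3 t.p3 (t.m3 + n + q + (vec u).2.2.2) m (by omega)]
        congr 1
        omega
      have e2 : red t.m3 t.p3 (t.m3 + n + t.p3 * m + (vec u).2.2.2) =
          red t.m3 t.p3 (t.m3 + n + (vec u).2.2.2) := by
        rw [← red_add_mul t.m3 t.p3 (t.m3 + n + (vec u).2.2.2) m (by omega)]
        congr 1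
        omega
      have : t.F ((vec u).1, (vec u).2.1, (vec u).2.2.1, t.m3 + n + t.p3 * m + q +
          (vec u).2.2.2) = t.F ((vec u).1, (vec u).2.1, (vec u).2.2.1, t.m3 + n + t.p3 * m +
          (vec u).2.2.2) := Bool.eq_iff_iff.2 hiff
      simp only [Tab.F, e1, e2] at this ⊢
      exact this

end Pool.Agent.Lib.MP_bc0e65_co
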